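import Pool.Agent.Helper17.Psi.Sieve

/-!
# From the sieve to products over sets of primes
-/

namespace Pool.Agent.Helper17.Psi

open Finset

theorem inv_le_wt (q : ℕ) (hq : 6 ≤ q) : (1 : ℝ) / q ≤ (wt (q / 6) : ℝ) / 1000000000000 := by
  have e : wt (q / 6) = 1000000000000 / (6 * (q / 6)) + 1 := rfl
  rw [e]
  have h1 : 0 < 6 * (q / 6) := by omega
  have h2 : 6 * (q / 6) ≤ q := by omega
  have h3 : 1000000000000 < (6 * (q / 6)) * (1000000000000 / (6 * (q / 6)) + 1) := by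
    have := Nat.lt_mul_div_succ 1000000000000 h1
    exact this
  have h4 : 1000000000000 < q * (1000000000000 / (6 * (q / 6)) + 1) :=
    lt_of_lt_of_le h3 (Nat.mul_le_mul_right _ h2)
  rw [div_le_div_iff₀ (by positivity) (by norm_num)]
  have h5 : ((1000000000000 : ℕ) : ℝ) < ((q * (1000000000000 / (6 * (q / 6)) + 1) : ℕ) : ℝ) := by
    exact_mod_cast h4
  push_cast at h5 ⊢
  linarith

/-- indices of a class -/
theorem sum_class (r sJ V : ℕ) (E : List (ℕ × ℕ)) (hs : 16 ≤ sJ)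
    (hCB : CB r E (wt sJ) 16 sJ V) (T : Finset ℕ)
    (hp : ∀ q ∈ T, q.Prime) (h6 : ∀ q ∈ T, q % 6 = r) (h96 : ∀ q ∈ T, 96 ≤ q)
    (hE : ∀ p ∈ E, ∀ q ∈ T, ¬ p.1 ∣ q + 1) :
    ∑ q ∈ T, (1 : ℝ) / q ≤ ((T.card * wt sJ + V : ℕ) : ℝ) / 1000000000000 := by
  have hinj : Set.InjOn (fun q => q / 6) (T : Set ℕ) := by
    intro a ha b hb hab
    have h1 := h6 a ha
    have h2 := h6 b hb
    simp only at hab
    omega
  have hgood : Good r E (T.image (fun q => q / 6)) := by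
    constructor
    · intro i hi
      rw [Finset.mem_image] at hi
      obtain ⟨q, hq, rfl⟩ := hi
      have h1 := h6 q hq
      have : 6 * (q / 6) + r = q := by omega
      rw [this]; exact hp q hq
    · intro i hi p hpE
      rw [Finset.mem_image] at hi
      obtain ⟨q, hq, rfl⟩ := hi
      have h1 := h6 q hq
      have : 6 * (q / 6) + r + 1 = q + 1 := by omega
      rw [this]; exact hE p hpE q hq
  have hV := hCB _ hgood
  have h1 : ∑ q ∈ T, (1 : ℝ) / q ≤ ∑ q ∈ T, (wt (q / 6) : ℝ) / 1000000000000 := by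
    apply Finset.sum_le_sum
    intro q hq
    exact inv_le_wt q (by have := h96 q hq; omega)
  refine le_trans h1 ?_
  rw [← Finset.sum_div, ← Nat.cast_sum]
  apply div_le_div_of_nonneg_right _ (by norm_num)
  rw [Nat.cast_le]
  have h2 : ∑ q ∈ T, wt (q / 6) = ∑ i ∈ T.image (fun q => q / 6), wt i :=
    (Finset.sum_image hinj).symm
  rw [h2]
  have h3 : ∑ i ∈ T.image (fun q => q / 6), wt i ≤
      ∑ i ∈ T.image (fun q => q / 6), (wt sJ + if 16 ≤ i ∧ i < sJ then wt i - wt sJ else 0) := by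
    apply Finset.sum_le_sum
    intro i hi
    rw [Finset.mem_image] at hi
    obtain ⟨q, hq, rfl⟩ := hi
    have h4 := h96 q hq
    by_cases h5 : q / 6 < sJ
    · rw [if_pos ⟨by omega, h5⟩]; omega
    · rw [if_neg (by omega)]
      have := wt_anti (s := sJ) (i := q / 6) (by omega) (by omega)
      omega
  refine le_trans h3 ?_
  rw [Finset.sum_add_distrib, Finset.sum_const, smul_eq_mul]
  have h4 : (T.image (fun q => q / 6)).card ≤ T.card := Finset.card_image_le
  have h5 : psum (T.image (fun q => q / 6)) (wt sJ) 16 sJ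
      = ∑ i ∈ T.image (fun q => q / 6), (if 16 ≤ i ∧ i < sJ then wt i - wt sJ else 0) := rfl
  rw [← h5]
  exact Nat.add_le_add (Nat.mul_le_mul_right _ h4) hV

theorem prod_split (T : Finset ℕ) (x : ℝ)
    (hb : ∑ q ∈ T.filter (fun q => 96 ≤ q), (1 : ℝ) / q ≤ x) (L : List ℕ) (hnd : L.Nodup)
    (hL : ∀ q ∈ T, q < 96 → q ∈ L) :
    ∏ q ∈ T, (1 + 1 / (q : ℝ)) ≤ (L.map (fun q : ℕ => 1 + 1 / (q : ℝ))).prod * Real.exp x := by
  have h0 : ∀ q : ℕ, (1 : ℝ) ≤ 1 + 1 / (q : ℝ) := by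
    intro q
    have : (0 : ℝ) ≤ 1 / (q : ℝ) := by positivity
    linarith
  have h1 : ∏ q ∈ T.filter (fun q => 96 ≤ q), (1 + 1 / (q : ℝ)) ≤ Real.exp x := by
    calc ∏ q ∈ T.filter (fun q => 96 ≤ q), (1 + 1 / (q : ℝ))
        ≤ ∏ q ∈ T.filter (fun q => 96 ≤ q), Real.exp (1 / (q : ℝ)) := by
          apply Finset.prod_le_prod
          · intro q _; exact le_trans zero_le_one (h0 q)
          · intro q _
            have := Real.add_one_le_exp (1 / (q : ℝ))
            linarith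
      _ = Real.exp (∑ q ∈ T.filter (fun q => 96 ≤ q), 1 / (q : ℝ)) := (Real.exp_sum _ _).symm
      _ ≤ Real.exp x := Real.exp_le_exp.mpr hb
  have h2 : ∏ q ∈ T.filter (fun q => ¬ 96 ≤ q), (1 + 1 / (q : ℝ))
      ≤ (L.map (fun q : ℕ => 1 + 1 / (q : ℝ))).prod := by
    rw [← List.prod_toFinset _ hnd]
    apply Finset.prod_le_prod_of_subset_of_one_le
    · intro q hq
      rw [Finset.mem_filter] at hq
      rw [List.mem_toFinset]
      exact hL q hq.1 (by omega)
    · intro q _; exact le_trans zero_le_one (h0 q)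
    · intro q _ _; exact h0 q
  have h3 : ∏ q ∈ T, (1 + 1 / (q : ℝ)) = (∏ q ∈ T.filter (fun q => 96 ≤ q), (1 + 1 / (q : ℝ)))
      * ∏ q ∈ T.filter (fun q => ¬ 96 ≤ q), (1 + 1 / (q : ℝ)) :=
    (Finset.prod_filter_mul_prod_filter_not T (fun q => 96 ≤ q) _).symm
  rw [h3, mul_comm]
  apply mul_le_mul h2 h1
  · exact Finset.prod_nonneg (fun q _ => le_trans zero_le_one (h0 q))
  · exact le_trans (Finset.prod_nonneg (fun q _ => le_trans zero_le_one (h0 q))) h2

/-- product of a list -/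
def lprod : List ℕ → ℕ
  | [] => 1
  | q :: l => Nat.mul q (lprod l)

/-- product of the successors of a list -/
def lprodS : List ℕ → ℕ
  | [] => 1
  | q :: l => Nat.mul (Nat.add q 1) (lprodS l)

theorem lprod_pos (L : List ℕ) (h : ∀ q ∈ L, 0 < q) : 0 < lprod L := by
  induction L with
  | nil => simp [lprod]
  | cons q l ih =>
    have e : lprod (q :: l) = q * lprod l := rfl
    rw [e]
    exact Nat.mul_pos (h q List.mem_cons_self) (ih (fun x hx => h x (List.mem_cons_of_mem _ hx)))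

theorem lprodS_pos (L : List ℕ) : 0 < lprodS L := by
  induction L with
  | nil => simp [lprodS]
  | cons q l ih =>
    have e : lprodS (q :: l) = (q + 1) * lprodS l := rfl
    rw [e]
    exact Nat.mul_pos (Nat.succ_pos _) ih

theorem prod_map_eq (L : List ℕ) (h : ∀ q ∈ L, 0 < q) :
    (L.map (fun q : ℕ => 1 + 1 / (q : ℝ))).prod = (lprodS L : ℝ) / lprod L := by
  induction L with
  | nil => simp [lprod, lprodS]
  | cons q l ih =>
    have e : lprod (q :: l) = q * lprod l := rfl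
    have e2 : lprodS (q :: l) = (q + 1) * lprodS l := rfl
    have h1 : 0 < q := h q List.mem_cons_self
    have h2 : 0 < lprod l := lprod_pos l (fun x hx => h x (List.mem_cons_of_mem _ hx))
    rw [List.map_cons, List.prod_cons, ih (fun x hx => h x (List.mem_cons_of_mem _ hx)), e, e2]
    have h1' : (q : ℝ) ≠ 0 := by positivity
    have h2' : (lprod l : ℝ) ≠ 0 := by positivity
    push_cast
    field_simp

/-- the numeric check: `exp (a / b) ≤ (tn / td) * lprod L / lprodS L` -/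
def expChk (a b tn td : ℕ) (L : List ℕ) : Bool :=
  Nat.ble (Nat.mul (Nat.pow 27182818286 a) (Nat.pow (Nat.mul td (lprodS L)) b))
    (Nat.mul (Nat.pow (Nat.mul tn (lprod L)) b) (Nat.pow 10000000000 a))

theorem exp_le_of_chk (a b tn td : ℕ) (L : List ℕ) (hb : 0 < b) (htd : 0 < td)
    (h : expChk a b tn td L = true) (x : ℝ) (hx : x ≤ (a : ℝ) / b) :
    Real.exp x ≤ (tn * lprod L : ℝ) / (td * lprodS L) := by
  have h1 : 27182818286 ^ a * (td * lprodS L) ^ b ≤ (tn * lprod L) ^ b * 10000000000 ^ a :=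
    Nat.le_of_ble_eq_true h
  have h2 : (27182818286 : ℝ) ^ a * (td * lprodS L) ^ b
      ≤ (tn * lprod L) ^ b * 10000000000 ^ a := by exact_mod_cast h1
  have hS : (0 : ℝ) < td * lprodS L := by
    have := lprodS_pos L
    positivity
  have hn : (0 : ℝ) ≤ (tn * lprod L : ℝ) / (td * lprodS L) := by positivity
  have hb' : b ≠ 0 := by omega
  rw [← pow_le_pow_iff_left₀ (Real.exp_pos x).le hn hb']
  have h3 : Real.exp x ^ b ≤ Real.exp 1 ^ a := by
    rw [← Real.exp_nat_mul, ← Real.exp_nat_mul]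
    apply Real.exp_le_exp.mpr
    rw [le_div_iff₀ (by exact_mod_cast hb)] at hx
    linarith
  have h4 : Real.exp 1 ^ a ≤ (2.7182818286 : ℝ) ^ a :=
    pow_le_pow_left₀ (Real.exp_pos 1).le Real.exp_one_lt_d9.le a
  refine le_trans h3 (le_trans h4 ?_)
  rw [div_pow, le_div_iff₀ (pow_pos hS b)]
  have h5 : (2.7182818286 : ℝ) ^ a = 27182818286 ^ a / 10000000000 ^ a := by
    rw [← div_pow]; norm_num
  rw [h5, div_mul_eq_mul_div, div_le_iff₀ (by positivity)]
  exact h2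

/-- the final step of every leaf -/
theorem leaf_fin (T : Finset ℕ) (x : ℝ)
    (hb : ∑ q ∈ T.filter (fun q => 96 ≤ q), (1 : ℝ) / q ≤ x) (L : List ℕ) (hnd : L.Nodup)
    (hL : ∀ q ∈ T, q < 96 → q ∈ L) (h0 : ∀ q ∈ L, 0 < q) (a b tn td : ℕ) (hb0 : 0 < b)
    (htd : 0 < td) (hx : x ≤ (a : ℝ) / b) (h : expChk a b tn td L = true) :
    ∏ q ∈ T, (1 + 1 / (q : ℝ)) ≤ (tn : ℝ) / td := by
  refine le_trans (prod_split T x hb L hnd hL) ?_
  have h1 := exp_le_of_chk a b tn td L hb0 htd h x hx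
  rw [prod_map_eq L h0]
  have h2 : (0 : ℝ) < lprod L := by exact_mod_cast lprod_pos L h0
  have h3 : (0 : ℝ) < lprodS L := by exact_mod_cast lprodS_pos L
  have h4 : (0 : ℝ) < td := by exact_mod_cast htd
  calc (lprodS L : ℝ) / lprod L * Real.exp x
      ≤ (lprodS L : ℝ) / lprod L * ((tn * lprod L : ℝ) / (td * lprodS L)) :=
        mul_le_mul_of_nonneg_left h1 (by positivity)
    _ = (tn : ℝ) / td := by field_simp

/-- leaf for sets of primes `6 i + 1` -/
theorem leafA (N sJ V : ℕ) (E : List (ℕ × ℕ)) (hs : 16 ≤ sJ) (hCB : CB 1 E (wt sJ) 16 sJ V)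
    (T : Finset ℕ) (hp : ∀ q ∈ T, q.Prime) (h6 : ∀ q ∈ T, q % 6 = 1) (hc : T.card ≤ N)
    (hE : ∀ p ∈ E, ∀ q ∈ T, ¬ p.1 ∣ q + 1) :
    ∑ q ∈ T.filter (fun q => 96 ≤ q), (1 : ℝ) / q
      ≤ ((N * wt sJ + V : ℕ) : ℝ) / 1000000000000 := by
  have h1 := sum_class 1 sJ V E hs hCB (T.filter (fun q => 96 ≤ q))
    (fun q hq => hp q (Finset.mem_filter.mp hq).1) (fun q hq => h6 q (Finset.mem_filter.mp hq).1)
    (fun q hq => (Finset.mem_filter.mp hq).2)
    (fun p hpE q hq => hE p hpE q (Finset.mem_filter.mp hq).1)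
  refine le_trans h1 ?_
  apply div_le_div_of_nonneg_right _ (by norm_num)
  rw [Nat.cast_le]
  have h2 : (T.filter (fun q => 96 ≤ q)).card ≤ N := le_trans (Finset.card_filter_le _ _) hc
  exact Nat.add_le_add_right (Nat.mul_le_mul_right _ h2) _

/-- leaf for sets of primes `6 i + 1`, `6 i + 5` -/
theorem leafB (N sJ V1 V5 : ℕ) (E1 E5 : List (ℕ × ℕ)) (hs : 16 ≤ sJ)
    (hCB1 : CB 1 E1 (wt sJ) 16 sJ V1) (hCB5 : CB 5 E5 (wt sJ) 16 sJ V5)
    (T : Finset ℕ) (hp : ∀ q ∈ T, q.Prime) (h6 : ∀ q ∈ T, q % 6 = 1 ∨ q % 6 = 5)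
    (hc : T.card ≤ N)
    (hE1 : ∀ p ∈ E1, ∀ q ∈ T, ¬ p.1 ∣ q + 1) (hE5 : ∀ p ∈ E5, ∀ q ∈ T, ¬ p.1 ∣ q + 1) :
    ∑ q ∈ T.filter (fun q => 96 ≤ q), (1 : ℝ) / q
      ≤ ((N * wt sJ + (V1 + V5) : ℕ) : ℝ) / 1000000000000 := by
  set U := T.filter (fun q => 96 ≤ q) with hU
  have hUT : ∀ q ∈ U, q ∈ T := fun q hq => (Finset.mem_filter.mp hq).1
  have hU96 : ∀ q ∈ U, 96 ≤ q := fun q hq => (Finset.mem_filter.mp hq).2
  have h1 := sum_class 1 sJ V1 E1 hs hCB1 (U.filter (fun q => q % 6 = 1))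
    (fun q hq => hp q (hUT q (Finset.mem_filter.mp hq).1))
    (fun q hq => (Finset.mem_filter.mp hq).2)
    (fun q hq => hU96 q (Finset.mem_filter.mp hq).1)
    (fun p hpE q hq => hE1 p hpE q (hUT q (Finset.mem_filter.mp hq).1))
  have h5 := sum_class 5 sJ V5 E5 hs hCB5 (U.filter (fun q => ¬ q % 6 = 1))
    (fun q hq => hp q (hUT q (Finset.mem_filter.mp hq).1))
    (fun q hq => (h6 q (hUT q (Finset.mem_filter.mp hq).1)).resolve_left
      (Finset.mem_filter.mp hq).2)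
    (fun q hq => hU96 q (Finset.mem_filter.mp hq).1)
    (fun p hpE q hq => hE5 p hpE q (hUT q (Finset.mem_filter.mp hq).1))
  have hsum := Finset.sum_filter_add_sum_filter_not U (fun q => q % 6 = 1)
    (fun q : ℕ => (1 : ℝ) / q)
  have hcard := Finset.card_filter_add_card_filter_not (s := U) (fun q => q % 6 = 1)
  have hUc : U.card ≤ N := le_trans (Finset.card_filter_le _ _) hc
  rw [← hsum]
  refine le_trans (add_le_add h1 h5) ?_
  rw [← add_div, ← Nat.cast_add]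
  apply div_le_div_of_nonneg_right _ (by norm_num)
  rw [Nat.cast_le]
  have h7 : (U.filter (fun q => q % 6 = 1)).card * wt sJ
      + (U.filter (fun q => ¬ q % 6 = 1)).card * wt sJ ≤ N * wt sJ := by
    rw [← Nat.add_mul]
    exact Nat.mul_le_mul_right _ (by omega)
  omega

end Pool.Agent.Helper17.Psi
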