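import Pool.Agent.Helper17.Psi.Sieve
import Pool.Agent.Helper17.Psi.Plist

/-!
# Kernel checks of chunks
-/

namespace Pool.Agent.Helper17.Psi

theorem c1_4 : chk 1 524288 524288 P4
  [(4096, 128)]
  [([(7, 2), (19, 6)], 28900, 15538730150),
   ([(7, 2), (31, 10)], 28900, 15912321131),
   ([(7, 2)], 28900, 16460574284),
   ([(13, 4), (19, 6)], 28900, 17072443417),
   ([(13, 4), (31, 10)], 28900, 17482205185),
   ([(13, 4)], 28900, 18085330640),
   ([(19, 6)], 28900, 18635046629),
   ([], 28900, 19738538287),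
   ([(5, 3), (7, 2)], 52982, 10812441763),
   ([(5, 3), (11, 7)], 52982, 11651834212),
   ([(5, 3)], 52982, 12951150087),
   ([(7, 2)], 52982, 14403802910),
   ([], 52982, 17271602289)] = true := by
  decide +kernel

theorem c1_5 : chk 1 1048576 524288 P5
  [(8192, 64)]
  [([(7, 2), (19, 6)], 28900, 7839563277),
   ([(7, 2), (31, 10)], 28900, 8022941591),
   ([(7, 2)], 28900, 8299982269),
   ([(13, 4), (19, 6)], 28900, 8628619840),
   ([(13, 4), (31, 10)], 28900, 8828839765),
   ([(13, 4)], 28900, 9135187282),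
   ([(19, 6)], 28900, 9410701888),
   ([], 28900, 9963606419),
   ([(5, 3), (7, 2)], 52982, 4730538846),
   ([(5, 3), (11, 7)], 52982, 5108544835),
   ([(5, 3)], 52982, 5677949579),
   ([(7, 2)], 52982, 6311314791),
   ([], 52982, 7576526333)] = true := by
  decide +kernel

theorem c1_6 : chk 1 1572864 524288 P6
  [(8192, 64)]
  [([(7, 2), (19, 6)], 28900, 4794005309),
   ([(7, 2), (31, 10)], 28900, 4910375711),
   ([(7, 2)], 28900, 5078112426),
   ([(13, 4), (19, 6)], 28900, 5271173801),
   ([(13, 4), (31, 10)], 28900, 5399328136),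
   ([(13, 4)], 28900, 5583917538),
   ([(19, 6)], 28900, 5751746013),
   ([], 28900, 6091922670),
   ([(5, 3), (7, 2)], 52982, 2348015591),
   ([(5, 3), (11, 7)], 52982, 2536030714),
   ([(5, 3)], 52982, 2819115610),
   ([(7, 2)], 52982, 3130817824),
   ([], 52982, 3755655604)] = true := by
  decide +kernel

theorem c1_7 : chk 1 2097152 524288 P7
  [(16384, 32)]
  [([(7, 2), (19, 6)], 28900, 3172249578),
   ([(7, 2), (31, 10)], 28900, 3248410742),
   ([(7, 2)], 28900, 3360517033),
   ([(13, 4), (19, 6)], 28900, 3495055436),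
   ([(13, 4), (31, 10)], 28900, 3577456986),
   ([(13, 4)], 28900, 3701515423),
   ([(19, 6)], 28900, 3810862845),
   ([], 28900, 4035705795),
   ([(5, 3), (7, 2)], 52982, 1087199661),
   ([(5, 3), (11, 7)], 52982, 1174798419),
   ([(5, 3)], 52982, 1305155253),
   ([(7, 2)], 52982, 1447370707),
   ([], 52982, 1738258913)] = true := by
  decide +kernel

theorem c1_8 : chk 1 2621440 524288 P8
  [(16384, 32)]
  [([(7, 2), (19, 6)], 28900, 2173307642),
   ([(7, 2), (31, 10)], 28900, 2223598406),
   ([(7, 2)], 28900, 2301068285),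
   ([(13, 4), (19, 6)], 28900, 2390656168),
   ([(13, 4), (31, 10)], 28900, 2446512660),
   ([(13, 4)], 28900, 2531347898),
   ([(19, 6)], 28900, 2607459486),
   ([], 28900, 2761311885),
   ([(5, 3), (7, 2)], 52982, 304899126),
   ([(5, 3), (11, 7)], 52982, 328740543),
   ([(5, 3)], 52982, 365224572),
   ([(7, 2)], 52982, 406007541),
   ([], 52982, 486959641)] = true := by
  decide +kernel

end Pool.Agent.Helper17.Psi
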