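import Pool.Agent.Helper17.Psi.Sieve
import Pool.Agent.Helper17.Psi.Plist

/-!
# Kernel checks of chunks
-/

namespace Pool.Agent.Helper17.Psi

theorem c1_9 : chk 1 3145728 524288 P9
  [(16384, 32)]
  [([(7, 2), (19, 6)], 28900, 1486897144),
   ([(7, 2), (31, 10)], 28900, 1523804798),
   ([(7, 2)], 28900, 1576049122),
   ([(13, 4), (19, 6)], 28900, 1635839384),
   ([(13, 4), (31, 10)], 28900, 1675869899),
   ([(13, 4)], 28900, 1733267247),
   ([(19, 6)], 28900, 1784058103),
   ([], 28900, 1890482771)] = true := by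
  decide +kernel

theorem c1_10 : chk 1 3670016 524288 P10
  [(16384, 32)]
  [([(7, 2), (19, 6)], 28900, 995300209),
   ([(7, 2), (31, 10)], 28900, 1018268762),
   ([(7, 2)], 28900, 1053485117),
   ([(13, 4), (19, 6)], 28900, 1093592659),
   ([(13, 4), (31, 10)], 28900, 1119374096),
   ([(13, 4)], 28900, 1157804468),
   ([(19, 6)], 28900, 1193433569),
   ([], 28900, 1263364607)] = true := by
  decide +kernel

theorem c1_11 : chk 1 4194304 524288 P11
  [(32768, 16)]
  [([(7, 2), (19, 6)], 28900, 628862187),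
   ([(7, 2), (31, 10)], 28900, 643480471),
   ([(7, 2)], 28900, 665605563),
   ([(13, 4), (19, 6)], 28900, 692276578),
   ([(13, 4), (31, 10)], 28900, 708291023),
   ([(13, 4)], 28900, 732508777),
   ([(19, 6)], 28900, 754780981),
   ([], 28900, 798853926)] = true := by
  decide +kernel

theorem c1_12 : chk 1 4718592 524288 P12
  [(32768, 16)]
  [([(7, 2), (19, 6)], 28900, 337763497),
   ([(7, 2), (31, 10)], 28900, 345758151),
   ([(7, 2)], 28900, 357494433),
   ([(13, 4), (19, 6)], 28900, 371538662),
   ([(13, 4), (31, 10)], 28900, 380408294),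
   ([(13, 4)], 28900, 393367313),
   ([(19, 6)], 28900, 405261766),
   ([], 28900, 429044080)] = true := by
  decide +kernel

theorem c1_13 : chk 1 5242880 524288 P13
  [(32768, 16)]
  [([(7, 2), (19, 6)], 28900, 106547914),
   ([(7, 2), (31, 10)], 28900, 109120564),
   ([(7, 2)], 28900, 112861198),
   ([(13, 4), (19, 6)], 28900, 117359646),
   ([(13, 4), (31, 10)], 28900, 120168898),
   ([(13, 4)], 28900, 124273345),
   ([(19, 6)], 28900, 127971573),
   ([], 28900, 135541980)] = true := by
  decide +kernel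

end Pool.Agent.Helper17.Psi
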