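import Pool.Agent.Helper17.Psi.Sieve
import Pool.Agent.Helper17.Psi.Plist

/-!
# Kernel checks of chunks
-/

namespace Pool.Agent.Helper17.Psi

theorem c5_0 : chk 5 16 1520 P0
  [(1, 16), (1, 32), (1, 64), (1, 128), (2, 128), (4, 128), (8, 64)]
  [([(5, 4), (7, 6)], 52982, 228973791729),
   ([(5, 4), (11, 10)], 52982, 237196529559),
   ([(5, 4)], 52982, 268762728653),
   ([(7, 6)], 52982, 298945200644),
   ([], 52982, 348929082333)] = true := by
  decide +kernel

theorem c5_1 : chk 5 1536 31232 P1
  [(8, 64), (16, 128), (32, 128), (64, 128), (128, 128)]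
  [([(5, 4), (7, 6)], 52982, 90547843622),
   ([(5, 4), (11, 10)], 52982, 97512027936),
   ([(5, 4)], 52982, 108735378610),
   ([(7, 6)], 52982, 120640240024),
   ([], 52982, 144816021335)] = true := by
  decide +kernel

theorem c5_2 : chk 5 32768 98304 P2
  [(256, 128), (512, 128)]
  [([(5, 4), (7, 6)], 52982, 33043249824),
   ([(5, 4), (11, 10)], 52982, 35693877349),
   ([(5, 4)], 52982, 39675421551),
   ([(7, 6)], 52982, 44055468937),
   ([], 52982, 52920424048)] = true := by
  decide +kernel

theorem c5_3 : chk 5 131072 393216 P3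
  [(1024, 128), (2048, 128)]
  [([(5, 4), (7, 6)], 52982, 27738682973),
   ([(5, 4), (11, 10)], 52982, 29945403926),
   ([(5, 4)], 52982, 33275192829),
   ([(7, 6)], 52982, 37017851375),
   ([], 52982, 44389167873)] = true := by
  decide +kernel

end Pool.Agent.Helper17.Psi
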