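import Pool.Agent.Helper17.Psi.Sieve
import Pool.Agent.Helper17.Psi.Plist

/-!
# Kernel checks of chunks
-/

namespace Pool.Agent.Helper17.Psi

theorem c5_4 : chk 5 524288 524288 P4
  [(4096, 128)]
  [([(5, 4), (7, 6)], 52982, 10782667382),
   ([(5, 4), (11, 10)], 52982, 11650295575),
   ([(5, 4)], 52982, 12955768898),
   ([(7, 6)], 52982, 14380841188),
   ([], 52982, 17278596764)] = true := by
  decide +kernel

theorem c5_5 : chk 5 1048576 524288 P5
  [(8192, 64)]
  [([(5, 4), (7, 6)], 52982, 4745180075),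
   ([(5, 4), (11, 10)], 52982, 5124812747),
   ([(5, 4)], 52982, 5690670403),
   ([(7, 6)], 52982, 6312990052),
   ([], 52982, 7573100852)] = true := by
  decide +kernel

theorem c5_6 : chk 5 1572864 524288 P6
  [(8192, 64)]
  [([(5, 4), (7, 6)], 52982, 2348079787),
   ([(5, 4), (11, 10)], 52982, 2534855155),
   ([(5, 4)], 52982, 2817209564),
   ([(7, 6)], 52982, 3133165964),
   ([], 52982, 3757395072)] = true := by
  decide +kernel

theorem c5_7 : chk 5 2097152 524288 P7
  [(16384, 32)]
  [([(5, 4), (7, 6)], 52982, 1088835593),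
   ([(5, 4), (11, 10)], 52982, 1175226733),
   ([(5, 4)], 52982, 1305575454),
   ([(7, 6)], 52982, 1452529884),
   ([], 52982, 1741490296)] = true := by
  decide +kernel

theorem c5_8 : chk 5 2621440 524288 P8
  [(16384, 32)]
  [([(5, 4), (7, 6)], 52982, 302981388),
   ([(5, 4), (11, 10)], 52982, 327694536),
   ([(5, 4)], 52982, 364074580),
   ([(7, 6)], 52982, 404792643),
   ([], 52982, 485971577)] = true := by
  decide +kernel

end Pool.Agent.Helper17.Psi
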