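import Pool.Agent.Helper17.Psi.D1a
import Pool.Agent.Helper17.Psi.D1b
import Pool.Agent.Helper17.Psi.D1c
import Pool.Agent.Helper17.Psi.D5a
import Pool.Agent.Helper17.Psi.D5b

/-!
# Bounds of the whole range
-/

namespace Pool.Agent.Helper17.Psi

theorem A0 : CB 1 [(7, 2), (19, 6)] 28900 16 5767168 481188311542 := by
  have h0 : CB 1 [(7, 2), (19, 6)] 28900 16 1536 253227888475 :=
    chk_sound c1_0 (by norm_num) rfl (by simp)
  have h1 : CB 1 [(7, 2), (19, 6)] 28900 1536 32768 112648491706 :=
    chk_sound c1_1 (by norm_num) rfl (by simp)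
  have h2 : CB 1 [(7, 2), (19, 6)] 28900 32768 131072 41754809365 :=
    chk_sound c1_2 (by norm_num) rfl (by simp)
  have h3 : CB 1 [(7, 2), (19, 6)] 28900 131072 524288 36483895089 :=
    chk_sound c1_3 (by norm_num) rfl (by simp)
  have h4 : CB 1 [(7, 2), (19, 6)] 28900 524288 1048576 15538730150 :=
    chk_sound c1_4 (by norm_num) rfl (by simp)
  have h5 : CB 1 [(7, 2), (19, 6)] 28900 1048576 1572864 7839563277 :=
    chk_sound c1_5 (by norm_num) rfl (by simp)
  have h6 : CB 1 [(7, 2), (19, 6)] 28900 1572864 2097152 4794005309 :=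
    chk_sound c1_6 (by norm_num) rfl (by simp)
  have h7 : CB 1 [(7, 2), (19, 6)] 28900 2097152 2621440 3172249578 :=
    chk_sound c1_7 (by norm_num) rfl (by simp)
  have h8 : CB 1 [(7, 2), (19, 6)] 28900 2621440 3145728 2173307642 :=
    chk_sound c1_8 (by norm_num) rfl (by simp)
  have h9 : CB 1 [(7, 2), (19, 6)] 28900 3145728 3670016 1486897144 :=
    chk_sound c1_9 (by norm_num) rfl (by simp)
  have h10 : CB 1 [(7, 2), (19, 6)] 28900 3670016 4194304 995300209 :=
    chk_sound c1_10 (by norm_num) rfl (by simp)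
  have h11 : CB 1 [(7, 2), (19, 6)] 28900 4194304 4718592 628862187 :=
    chk_sound c1_11 (by norm_num) rfl (by simp)
  have h12 : CB 1 [(7, 2), (19, 6)] 28900 4718592 5242880 337763497 :=
    chk_sound c1_12 (by norm_num) rfl (by simp)
  have h13 : CB 1 [(7, 2), (19, 6)] 28900 5242880 5767168 106547914 :=
    chk_sound c1_13 (by norm_num) rfl (by simp)
  exact (((((((((((((h0.trans h1).trans h2).trans h3).trans h4).trans h5).trans h6).trans h7).trans h8).trans h9).trans h10).trans h11).trans h12).trans h13)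

theorem A1 : CB 1 [(7, 2), (31, 10)] 28900 16 5767168 498836714271 := by
  have h0 : CB 1 [(7, 2), (31, 10)] 28900 16 1536 265173530936 :=
    chk_sound c1_0 (by norm_num) rfl (by simp)
  have h1 : CB 1 [(7, 2), (31, 10)] 28900 1536 32768 115634102904 :=
    chk_sound c1_1 (by norm_num) rfl (by simp)
  have h2 : CB 1 [(7, 2), (31, 10)] 28900 32768 131072 42741488103 :=
    chk_sound c1_2 (by norm_num) rfl (by simp)
  have h3 : CB 1 [(7, 2), (31, 10)] 28900 131072 524288 37329512001 :=
    chk_sound c1_3 (by norm_num) rfl (by simp)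
  have h4 : CB 1 [(7, 2), (31, 10)] 28900 524288 1048576 15912321131 :=
    chk_sound c1_4 (by norm_num) rfl (by simp)
  have h5 : CB 1 [(7, 2), (31, 10)] 28900 1048576 1572864 8022941591 :=
    chk_sound c1_5 (by norm_num) rfl (by simp)
  have h6 : CB 1 [(7, 2), (31, 10)] 28900 1572864 2097152 4910375711 :=
    chk_sound c1_6 (by norm_num) rfl (by simp)
  have h7 : CB 1 [(7, 2), (31, 10)] 28900 2097152 2621440 3248410742 :=
    chk_sound c1_7 (by norm_num) rfl (by simp)
  have h8 : CB 1 [(7, 2), (31, 10)] 28900 2621440 3145728 2223598406 :=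
    chk_sound c1_8 (by norm_num) rfl (by simp)
  have h9 : CB 1 [(7, 2), (31, 10)] 28900 3145728 3670016 1523804798 :=
    chk_sound c1_9 (by norm_num) rfl (by simp)
  have h10 : CB 1 [(7, 2), (31, 10)] 28900 3670016 4194304 1018268762 :=
    chk_sound c1_10 (by norm_num) rfl (by simp)
  have h11 : CB 1 [(7, 2), (31, 10)] 28900 4194304 4718592 643480471 :=
    chk_sound c1_11 (by norm_num) rfl (by simp)
  have h12 : CB 1 [(7, 2), (31, 10)] 28900 4718592 5242880 345758151 :=
    chk_sound c1_12 (by norm_num) rfl (by simp)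
  have h13 : CB 1 [(7, 2), (31, 10)] 28900 5242880 5767168 109120564 :=
    chk_sound c1_13 (by norm_num) rfl (by simp)
  exact (((((((((((((h0.trans h1).trans h2).trans h3).trans h4).trans h5).trans h6).trans h7).trans h8).trans h9).trans h10).trans h11).trans h12).trans h13)

theorem A2 : CB 1 [(7, 2)] 28900 16 5767168 512394921227 := by
  have h0 : CB 1 [(7, 2)] 28900 16 1536 270971087398 :=
    chk_sound c1_0 (by norm_num) rfl (by simp)
  have h1 : CB 1 [(7, 2)] 28900 1536 32768 119279215333 :=
    chk_sound c1_1 (by norm_num) rfl (by simp)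
  have h2 : CB 1 [(7, 2)] 28900 32768 131072 44263934603 :=
    chk_sound c1_2 (by norm_num) rfl (by simp)
  have h3 : CB 1 [(7, 2)] 28900 131072 524288 38614934163 :=
    chk_sound c1_3 (by norm_num) rfl (by simp)
  have h4 : CB 1 [(7, 2)] 28900 524288 1048576 16460574284 :=
    chk_sound c1_4 (by norm_num) rfl (by simp)
  have h5 : CB 1 [(7, 2)] 28900 1048576 1572864 8299982269 :=
    chk_sound c1_5 (by norm_num) rfl (by simp)
  have h6 : CB 1 [(7, 2)] 28900 1572864 2097152 5078112426 :=
    chk_sound c1_6 (by norm_num) rfl (by simp)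
  have h7 : CB 1 [(7, 2)] 28900 2097152 2621440 3360517033 :=
    chk_sound c1_7 (by norm_num) rfl (by simp)
  have h8 : CB 1 [(7, 2)] 28900 2621440 3145728 2301068285 :=
    chk_sound c1_8 (by norm_num) rfl (by simp)
  have h9 : CB 1 [(7, 2)] 28900 3145728 3670016 1576049122 :=
    chk_sound c1_9 (by norm_num) rfl (by simp)
  have h10 : CB 1 [(7, 2)] 28900 3670016 4194304 1053485117 :=
    chk_sound c1_10 (by norm_num) rfl (by simp)
  have h11 : CB 1 [(7, 2)] 28900 4194304 4718592 665605563 :=
    chk_sound c1_11 (by norm_num) rfl (by simp)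
  have h12 : CB 1 [(7, 2)] 28900 4718592 5242880 357494433 :=
    chk_sound c1_12 (by norm_num) rfl (by simp)
  have h13 : CB 1 [(7, 2)] 28900 5242880 5767168 112861198 :=
    chk_sound c1_13 (by norm_num) rfl (by simp)
  exact (((((((((((((h0.trans h1).trans h2).trans h3).trans h4).trans h5).trans h6).trans h7).trans h8).trans h9).trans h10).trans h11).trans h12).trans h13)

theorem A3 : CB 1 [(13, 4), (19, 6)] 28900 16 5767168 535911860428 := by
  have h0 : CB 1 [(13, 4), (19, 6)] 28900 16 1536 284653175268 :=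
    chk_sound c1_0 (by norm_num) rfl (by simp)
  have h1 : CB 1 [(13, 4), (19, 6)] 28900 1536 32768 124342514127 :=
    chk_sound c1_1 (by norm_num) rfl (by simp)
  have h2 : CB 1 [(13, 4), (19, 6)] 28900 32768 131072 45973328493 :=
    chk_sound c1_2 (by norm_num) rfl (by simp)
  have h3 : CB 1 [(13, 4), (19, 6)] 28900 131072 524288 40174286949 :=
    chk_sound c1_3 (by norm_num) rfl (by simp)
  have h4 : CB 1 [(13, 4), (19, 6)] 28900 524288 1048576 17072443417 :=
    chk_sound c1_4 (by norm_num) rfl (by simp)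
  have h5 : CB 1 [(13, 4), (19, 6)] 28900 1048576 1572864 8628619840 :=
    chk_sound c1_5 (by norm_num) rfl (by simp)
  have h6 : CB 1 [(13, 4), (19, 6)] 28900 1572864 2097152 5271173801 :=
    chk_sound c1_6 (by norm_num) rfl (by simp)
  have h7 : CB 1 [(13, 4), (19, 6)] 28900 2097152 2621440 3495055436 :=
    chk_sound c1_7 (by norm_num) rfl (by simp)
  have h8 : CB 1 [(13, 4), (19, 6)] 28900 2621440 3145728 2390656168 :=
    chk_sound c1_8 (by norm_num) rfl (by simp)
  have h9 : CB 1 [(13, 4), (19, 6)] 28900 3145728 3670016 1635839384 :=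
    chk_sound c1_9 (by norm_num) rfl (by simp)
  have h10 : CB 1 [(13, 4), (19, 6)] 28900 3670016 4194304 1093592659 :=
    chk_sound c1_10 (by norm_num) rfl (by simp)
  have h11 : CB 1 [(13, 4), (19, 6)] 28900 4194304 4718592 692276578 :=
    chk_sound c1_11 (by norm_num) rfl (by simp)
  have h12 : CB 1 [(13, 4), (19, 6)] 28900 4718592 5242880 371538662 :=
    chk_sound c1_12 (by norm_num) rfl (by simp)
  have h13 : CB 1 [(13, 4), (19, 6)] 28900 5242880 5767168 117359646 :=
    chk_sound c1_13 (by norm_num) rfl (by simp)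
  exact (((((((((((((h0.trans h1).trans h2).trans h3).trans h4).trans h5).trans h6).trans h7).trans h8).trans h9).trans h10).trans h11).trans h12).trans h13)

theorem A4 : CB 1 [(13, 4), (31, 10)] 28900 16 5767168 553310058963 := by
  have h0 : CB 1 [(13, 4), (31, 10)] 28900 16 1536 295829803032 :=
    chk_sound c1_0 (by norm_num) rfl (by simp)
  have h1 : CB 1 [(13, 4), (31, 10)] 28900 1536 32768 127567297892 :=
    chk_sound c1_1 (by norm_num) rfl (by simp)
  have h2 : CB 1 [(13, 4), (31, 10)] 28900 32768 131072 47064191430 :=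
    chk_sound c1_2 (by norm_num) rfl (by simp)
  have h3 : CB 1 [(13, 4), (31, 10)] 28900 131072 524288 41110311667 :=
    chk_sound c1_3 (by norm_num) rfl (by simp)
  have h4 : CB 1 [(13, 4), (31, 10)] 28900 524288 1048576 17482205185 :=
    chk_sound c1_4 (by norm_num) rfl (by simp)
  have h5 : CB 1 [(13, 4), (31, 10)] 28900 1048576 1572864 8828839765 :=
    chk_sound c1_5 (by norm_num) rfl (by simp)
  have h6 : CB 1 [(13, 4), (31, 10)] 28900 1572864 2097152 5399328136 :=
    chk_sound c1_6 (by norm_num) rfl (by simp)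
  have h7 : CB 1 [(13, 4), (31, 10)] 28900 2097152 2621440 3577456986 :=
    chk_sound c1_7 (by norm_num) rfl (by simp)
  have h8 : CB 1 [(13, 4), (31, 10)] 28900 2621440 3145728 2446512660 :=
    chk_sound c1_8 (by norm_num) rfl (by simp)
  have h9 : CB 1 [(13, 4), (31, 10)] 28900 3145728 3670016 1675869899 :=
    chk_sound c1_9 (by norm_num) rfl (by simp)
  have h10 : CB 1 [(13, 4), (31, 10)] 28900 3670016 4194304 1119374096 :=
    chk_sound c1_10 (by norm_num) rfl (by simp)
  have h11 : CB 1 [(13, 4), (31, 10)] 28900 4194304 4718592 708291023 :=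
    chk_sound c1_11 (by norm_num) rfl (by simp)
  have h12 : CB 1 [(13, 4), (31, 10)] 28900 4718592 5242880 380408294 :=
    chk_sound c1_12 (by norm_num) rfl (by simp)
  have h13 : CB 1 [(13, 4), (31, 10)] 28900 5242880 5767168 120168898 :=
    chk_sound c1_13 (by norm_num) rfl (by simp)
  exact (((((((((((((h0.trans h1).trans h2).trans h3).trans h4).trans h5).trans h6).trans h7).trans h8).trans h9).trans h10).trans h11).trans h12).trans h13)

theorem A5 : CB 1 [(13, 4)] 28900 16 5767168 570470625189 := by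
  have h0 : CB 1 [(13, 4)] 28900 16 1536 304378228256 :=
    chk_sound c1_0 (by norm_num) rfl (by simp)
  have h1 : CB 1 [(13, 4)] 28900 1536 32768 131694186312 :=
    chk_sound c1_1 (by norm_num) rfl (by simp)
  have h2 : CB 1 [(13, 4)] 28900 32768 131072 48700108394 :=
    chk_sound c1_2 (by norm_num) rfl (by simp)
  have h3 : CB 1 [(13, 4)] 28900 131072 524288 42519582296 :=
    chk_sound c1_3 (by norm_num) rfl (by simp)
  have h4 : CB 1 [(13, 4)] 28900 524288 1048576 18085330640 :=
    chk_sound c1_4 (by norm_num) rfl (by simp)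
  have h5 : CB 1 [(13, 4)] 28900 1048576 1572864 9135187282 :=
    chk_sound c1_5 (by norm_num) rfl (by simp)
  have h6 : CB 1 [(13, 4)] 28900 1572864 2097152 5583917538 :=
    chk_sound c1_6 (by norm_num) rfl (by simp)
  have h7 : CB 1 [(13, 4)] 28900 2097152 2621440 3701515423 :=
    chk_sound c1_7 (by norm_num) rfl (by simp)
  have h8 : CB 1 [(13, 4)] 28900 2621440 3145728 2531347898 :=
    chk_sound c1_8 (by norm_num) rfl (by simp)
  have h9 : CB 1 [(13, 4)] 28900 3145728 3670016 1733267247 :=
    chk_sound c1_9 (by norm_num) rfl (by simp)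
  have h10 : CB 1 [(13, 4)] 28900 3670016 4194304 1157804468 :=
    chk_sound c1_10 (by norm_num) rfl (by simp)
  have h11 : CB 1 [(13, 4)] 28900 4194304 4718592 732508777 :=
    chk_sound c1_11 (by norm_num) rfl (by simp)
  have h12 : CB 1 [(13, 4)] 28900 4718592 5242880 393367313 :=
    chk_sound c1_12 (by norm_num) rfl (by simp)
  have h13 : CB 1 [(13, 4)] 28900 5242880 5767168 124273345 :=
    chk_sound c1_13 (by norm_num) rfl (by simp)
  exact (((((((((((((h0.trans h1).trans h2).trans h3).trans h4).trans h5).trans h6).trans h7).trans h8).trans h9).trans h10).trans h11).trans h12).trans h13)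

theorem A6 : CB 1 [(19, 6)] 28900 16 5767168 592539912237 := by
  have h0 : CB 1 [(19, 6)] 28900 16 1536 318623697893 :=
    chk_sound c1_0 (by norm_num) rfl (by simp)
  have h1 : CB 1 [(19, 6)] 28900 1536 32768 135451500931 :=
    chk_sound c1_1 (by norm_num) rfl (by simp)
  have h2 : CB 1 [(19, 6)] 28900 32768 131072 50175497315 :=
    chk_sound c1_2 (by norm_num) rfl (by simp)
  have h3 : CB 1 [(19, 6)] 28900 131072 524288 43807893245 :=
    chk_sound c1_3 (by norm_num) rfl (by simp)
  have h4 : CB 1 [(19, 6)] 28900 524288 1048576 18635046629 :=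
    chk_sound c1_4 (by norm_num) rfl (by simp)
  have h5 : CB 1 [(19, 6)] 28900 1048576 1572864 9410701888 :=
    chk_sound c1_5 (by norm_num) rfl (by simp)
  have h6 : CB 1 [(19, 6)] 28900 1572864 2097152 5751746013 :=
    chk_sound c1_6 (by norm_num) rfl (by simp)
  have h7 : CB 1 [(19, 6)] 28900 2097152 2621440 3810862845 :=
    chk_sound c1_7 (by norm_num) rfl (by simp)
  have h8 : CB 1 [(19, 6)] 28900 2621440 3145728 2607459486 :=
    chk_sound c1_8 (by norm_num) rfl (by simp)
  have h9 : CB 1 [(19, 6)] 28900 3145728 3670016 1784058103 :=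
    chk_sound c1_9 (by norm_num) rfl (by simp)
  have h10 : CB 1 [(19, 6)] 28900 3670016 4194304 1193433569 :=
    chk_sound c1_10 (by norm_num) rfl (by simp)
  have h11 : CB 1 [(19, 6)] 28900 4194304 4718592 754780981 :=
    chk_sound c1_11 (by norm_num) rfl (by simp)
  have h12 : CB 1 [(19, 6)] 28900 4718592 5242880 405261766 :=
    chk_sound c1_12 (by norm_num) rfl (by simp)
  have h13 : CB 1 [(19, 6)] 28900 5242880 5767168 127971573 :=
    chk_sound c1_13 (by norm_num) rfl (by simp)
  exact (((((((((((((h0.trans h1).trans h2).trans h3).trans h4).trans h5).trans h6).trans h7).trans h8).trans h9).trans h10).trans h11).trans h12).trans h13)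

theorem A7 : CB 1 [] 28900 16 5767168 628950113463 := by
  have h0 : CB 1 [] 28900 16 1536 338794686538 :=
    chk_sound c1_0 (by norm_num) rfl (by simp)
  have h1 : CB 1 [] 28900 1536 32768 143522559677 :=
    chk_sound c1_1 (by norm_num) rfl (by simp)
  have h2 : CB 1 [] 28900 32768 131072 53149062172 :=
    chk_sound c1_2 (by norm_num) rfl (by simp)
  have h3 : CB 1 [] 28900 131072 524288 46375432656 :=
    chk_sound c1_3 (by norm_num) rfl (by simp)
  have h4 : CB 1 [] 28900 524288 1048576 19738538287 :=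
    chk_sound c1_4 (by norm_num) rfl (by simp)
  have h5 : CB 1 [] 28900 1048576 1572864 9963606419 :=
    chk_sound c1_5 (by norm_num) rfl (by simp)
  have h6 : CB 1 [] 28900 1572864 2097152 6091922670 :=
    chk_sound c1_6 (by norm_num) rfl (by simp)
  have h7 : CB 1 [] 28900 2097152 2621440 4035705795 :=
    chk_sound c1_7 (by norm_num) rfl (by simp)
  have h8 : CB 1 [] 28900 2621440 3145728 2761311885 :=
    chk_sound c1_8 (by norm_num) rfl (by simp)
  have h9 : CB 1 [] 28900 3145728 3670016 1890482771 :=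
    chk_sound c1_9 (by norm_num) rfl (by simp)
  have h10 : CB 1 [] 28900 3670016 4194304 1263364607 :=
    chk_sound c1_10 (by norm_num) rfl (by simp)
  have h11 : CB 1 [] 28900 4194304 4718592 798853926 :=
    chk_sound c1_11 (by norm_num) rfl (by simp)
  have h12 : CB 1 [] 28900 4718592 5242880 429044080 :=
    chk_sound c1_12 (by norm_num) rfl (by simp)
  have h13 : CB 1 [] 28900 5242880 5767168 135541980 :=
    chk_sound c1_13 (by norm_num) rfl (by simp)
  exact (((((((((((((h0.trans h1).trans h2).trans h3).trans h4).trans h5).trans h6).trans h7).trans h8).trans h9).trans h10).trans h11).trans h12).trans h13)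

theorem B1_0 : CB 1 [(5, 3), (7, 2)] 52982 16 3145728 375461037955 := by
  have h0 : CB 1 [(5, 3), (7, 2)] 52982 16 1536 206191847088 :=
    chk_sound c1_0 (by norm_num) rfl (by simp)
  have h1 : CB 1 [(5, 3), (7, 2)] 52982 1536 32768 89390623043 :=
    chk_sound c1_1 (by norm_num) rfl (by simp)
  have h2 : CB 1 [(5, 3), (7, 2)] 52982 32768 131072 32843844369 :=
    chk_sound c1_2 (by norm_num) rfl (by simp)
  have h3 : CB 1 [(5, 3), (7, 2)] 52982 131072 524288 27751628468 :=
    chk_sound c1_3 (by norm_num) rfl (by simp)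
  have h4 : CB 1 [(5, 3), (7, 2)] 52982 524288 1048576 10812441763 :=
    chk_sound c1_4 (by norm_num) rfl (by simp)
  have h5 : CB 1 [(5, 3), (7, 2)] 52982 1048576 1572864 4730538846 :=
    chk_sound c1_5 (by norm_num) rfl (by simp)
  have h6 : CB 1 [(5, 3), (7, 2)] 52982 1572864 2097152 2348015591 :=
    chk_sound c1_6 (by norm_num) rfl (by simp)
  have h7 : CB 1 [(5, 3), (7, 2)] 52982 2097152 2621440 1087199661 :=
    chk_sound c1_7 (by norm_num) rfl (by simp)
  have h8 : CB 1 [(5, 3), (7, 2)] 52982 2621440 3145728 304899126 :=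
    chk_sound c1_8 (by norm_num) rfl (by simp)
  exact ((((((((h0.trans h1).trans h2).trans h3).trans h4).trans h5).trans h6).trans h7).trans h8)

theorem B5_0 : CB 5 [(5, 4), (7, 6)] 52982 16 3145728 399571312373 := by
  have h0 : CB 5 [(5, 4), (7, 6)] 52982 16 1536 228973791729 :=
    chk_sound c5_0 (by norm_num) rfl (by simp)
  have h1 : CB 5 [(5, 4), (7, 6)] 52982 1536 32768 90547843622 :=
    chk_sound c5_1 (by norm_num) rfl (by simp)
  have h2 : CB 5 [(5, 4), (7, 6)] 52982 32768 131072 33043249824 :=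
    chk_sound c5_2 (by norm_num) rfl (by simp)
  have h3 : CB 5 [(5, 4), (7, 6)] 52982 131072 524288 27738682973 :=
    chk_sound c5_3 (by norm_num) rfl (by simp)
  have h4 : CB 5 [(5, 4), (7, 6)] 52982 524288 1048576 10782667382 :=
    chk_sound c5_4 (by norm_num) rfl (by simp)
  have h5 : CB 5 [(5, 4), (7, 6)] 52982 1048576 1572864 4745180075 :=
    chk_sound c5_5 (by norm_num) rfl (by simp)
  have h6 : CB 5 [(5, 4), (7, 6)] 52982 1572864 2097152 2348079787 :=
    chk_sound c5_6 (by norm_num) rfl (by simp)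
  have h7 : CB 5 [(5, 4), (7, 6)] 52982 2097152 2621440 1088835593 :=
    chk_sound c5_7 (by norm_num) rfl (by simp)
  have h8 : CB 5 [(5, 4), (7, 6)] 52982 2621440 3145728 302981388 :=
    chk_sound c5_8 (by norm_num) rfl (by simp)
  exact ((((((((h0.trans h1).trans h2).trans h3).trans h4).trans h5).trans h6).trans h7).trans h8)

theorem B1_1 : CB 1 [(5, 3), (11, 7)] 52982 16 3145728 416335082899 := by
  have h0 : CB 1 [(5, 3), (11, 7)] 52982 16 1536 233236520128 :=
    chk_sound c1_0 (by norm_num) rfl (by simp)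
  have h1 : CB 1 [(5, 3), (11, 7)] 52982 1536 32768 96751927124 :=
    chk_sound c1_1 (by norm_num) rfl (by simp)
  have h2 : CB 1 [(5, 3), (11, 7)] 52982 32768 131072 35542281548 :=
    chk_sound c1_2 (by norm_num) rfl (by simp)
  have h3 : CB 1 [(5, 3), (11, 7)] 52982 131072 524288 30004405376 :=
    chk_sound c1_3 (by norm_num) rfl (by simp)
  have h4 : CB 1 [(5, 3), (11, 7)] 52982 524288 1048576 11651834212 :=
    chk_sound c1_4 (by norm_num) rfl (by simp)
  have h5 : CB 1 [(5, 3), (11, 7)] 52982 1048576 1572864 5108544835 :=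
    chk_sound c1_5 (by norm_num) rfl (by simp)
  have h6 : CB 1 [(5, 3), (11, 7)] 52982 1572864 2097152 2536030714 :=
    chk_sound c1_6 (by norm_num) rfl (by simp)
  have h7 : CB 1 [(5, 3), (11, 7)] 52982 2097152 2621440 1174798419 :=
    chk_sound c1_7 (by norm_num) rfl (by simp)
  have h8 : CB 1 [(5, 3), (11, 7)] 52982 2621440 3145728 328740543 :=
    chk_sound c1_8 (by norm_num) rfl (by simp)
  exact ((((((((h0.trans h1).trans h2).trans h3).trans h4).trans h5).trans h6).trans h7).trans h8)

theorem B5_1 : CB 5 [(5, 4), (11, 10)] 52982 16 3145728 421160723516 := by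
  have h0 : CB 5 [(5, 4), (11, 10)] 52982 16 1536 237196529559 :=
    chk_sound c5_0 (by norm_num) rfl (by simp)
  have h1 : CB 5 [(5, 4), (11, 10)] 52982 1536 32768 97512027936 :=
    chk_sound c5_1 (by norm_num) rfl (by simp)
  have h2 : CB 5 [(5, 4), (11, 10)] 52982 32768 131072 35693877349 :=
    chk_sound c5_2 (by norm_num) rfl (by simp)
  have h3 : CB 5 [(5, 4), (11, 10)] 52982 131072 524288 29945403926 :=
    chk_sound c5_3 (by norm_num) rfl (by simp)
  have h4 : CB 5 [(5, 4), (11, 10)] 52982 524288 1048576 11650295575 :=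
    chk_sound c5_4 (by norm_num) rfl (by simp)
  have h5 : CB 5 [(5, 4), (11, 10)] 52982 1048576 1572864 5124812747 :=
    chk_sound c5_5 (by norm_num) rfl (by simp)
  have h6 : CB 5 [(5, 4), (11, 10)] 52982 1572864 2097152 2534855155 :=
    chk_sound c5_6 (by norm_num) rfl (by simp)
  have h7 : CB 5 [(5, 4), (11, 10)] 52982 2097152 2621440 1175226733 :=
    chk_sound c5_7 (by norm_num) rfl (by simp)
  have h8 : CB 5 [(5, 4), (11, 10)] 52982 2621440 3145728 327694536 :=
    chk_sound c5_8 (by norm_num) rfl (by simp)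
  exact ((((((((h0.trans h1).trans h2).trans h3).trans h4).trans h5).trans h6).trans h7).trans h8)

theorem B1_2 : CB 1 [(5, 3)] 52982 16 3145728 460265337503 := by
  have h0 : CB 1 [(5, 3)] 52982 16 1536 256693177541 :=
    chk_sound c1_0 (by norm_num) rfl (by simp)
  have h1 : CB 1 [(5, 3)] 52982 1536 32768 107643541087 :=
    chk_sound c1_1 (by norm_num) rfl (by simp)
  have h2 : CB 1 [(5, 3)] 52982 32768 131072 39486882946 :=
    chk_sound c1_2 (by norm_num) rfl (by simp)
  have h3 : CB 1 [(5, 3)] 52982 131072 524288 33323140828 :=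
    chk_sound c1_3 (by norm_num) rfl (by simp)
  have h4 : CB 1 [(5, 3)] 52982 524288 1048576 12951150087 :=
    chk_sound c1_4 (by norm_num) rfl (by simp)
  have h5 : CB 1 [(5, 3)] 52982 1048576 1572864 5677949579 :=
    chk_sound c1_5 (by norm_num) rfl (by simp)
  have h6 : CB 1 [(5, 3)] 52982 1572864 2097152 2819115610 :=
    chk_sound c1_6 (by norm_num) rfl (by simp)
  have h7 : CB 1 [(5, 3)] 52982 2097152 2621440 1305155253 :=
    chk_sound c1_7 (by norm_num) rfl (by simp)
  have h8 : CB 1 [(5, 3)] 52982 2621440 3145728 365224572 :=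
    chk_sound c1_8 (by norm_num) rfl (by simp)
  exact ((((((((h0.trans h1).trans h2).trans h3).trans h4).trans h5).trans h6).trans h7).trans h8)

theorem B5_2 : CB 5 [(5, 4)] 52982 16 3145728 473582020542 := by
  have h0 : CB 5 [(5, 4)] 52982 16 1536 268762728653 :=
    chk_sound c5_0 (by norm_num) rfl (by simp)
  have h1 : CB 5 [(5, 4)] 52982 1536 32768 108735378610 :=
    chk_sound c5_1 (by norm_num) rfl (by simp)
  have h2 : CB 5 [(5, 4)] 52982 32768 131072 39675421551 :=
    chk_sound c5_2 (by norm_num) rfl (by simp)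
  have h3 : CB 5 [(5, 4)] 52982 131072 524288 33275192829 :=
    chk_sound c5_3 (by norm_num) rfl (by simp)
  have h4 : CB 5 [(5, 4)] 52982 524288 1048576 12955768898 :=
    chk_sound c5_4 (by norm_num) rfl (by simp)
  have h5 : CB 5 [(5, 4)] 52982 1048576 1572864 5690670403 :=
    chk_sound c5_5 (by norm_num) rfl (by simp)
  have h6 : CB 5 [(5, 4)] 52982 1572864 2097152 2817209564 :=
    chk_sound c5_6 (by norm_num) rfl (by simp)
  have h7 : CB 5 [(5, 4)] 52982 2097152 2621440 1305575454 :=
    chk_sound c5_7 (by norm_num) rfl (by simp)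
  have h8 : CB 5 [(5, 4)] 52982 2621440 3145728 364074580 :=
    chk_sound c5_8 (by norm_num) rfl (by simp)
  exact ((((((((h0.trans h1).trans h2).trans h3).trans h4).trans h5).trans h6).trans h7).trans h8)

theorem B1_4 : CB 1 [(7, 2)] 52982 16 3145728 496558275130 := by
  have h0 : CB 1 [(7, 2)] 52982 16 1536 270959889268 :=
    chk_sound c1_0 (by norm_num) rfl (by simp)
  have h1 : CB 1 [(7, 2)] 52982 1536 32768 119113049533 :=
    chk_sound c1_1 (by norm_num) rfl (by simp)
  have h2 : CB 1 [(7, 2)] 52982 32768 131072 43811289331 :=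
    chk_sound c1_2 (by norm_num) rfl (by simp)
  have h3 : CB 1 [(7, 2)] 52982 131072 524288 36974733225 :=
    chk_sound c1_3 (by norm_num) rfl (by simp)
  have h4 : CB 1 [(7, 2)] 52982 524288 1048576 14403802910 :=
    chk_sound c1_4 (by norm_num) rfl (by simp)
  have h5 : CB 1 [(7, 2)] 52982 1048576 1572864 6311314791 :=
    chk_sound c1_5 (by norm_num) rfl (by simp)
  have h6 : CB 1 [(7, 2)] 52982 1572864 2097152 3130817824 :=
    chk_sound c1_6 (by norm_num) rfl (by simp)
  have h7 : CB 1 [(7, 2)] 52982 2097152 2621440 1447370707 :=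
    chk_sound c1_7 (by norm_num) rfl (by simp)
  have h8 : CB 1 [(7, 2)] 52982 2621440 3145728 406007541 :=
    chk_sound c1_8 (by norm_num) rfl (by simp)
  exact ((((((((h0.trans h1).trans h2).trans h3).trans h4).trans h5).trans h6).trans h7).trans h8)

theorem B5_4 : CB 5 [(7, 6)] 52982 16 3145728 526343080711 := by
  have h0 : CB 5 [(7, 6)] 52982 16 1536 298945200644 :=
    chk_sound c5_0 (by norm_num) rfl (by simp)
  have h1 : CB 5 [(7, 6)] 52982 1536 32768 120640240024 :=
    chk_sound c5_1 (by norm_num) rfl (by simp)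
  have h2 : CB 5 [(7, 6)] 52982 32768 131072 44055468937 :=
    chk_sound c5_2 (by norm_num) rfl (by simp)
  have h3 : CB 5 [(7, 6)] 52982 131072 524288 37017851375 :=
    chk_sound c5_3 (by norm_num) rfl (by simp)
  have h4 : CB 5 [(7, 6)] 52982 524288 1048576 14380841188 :=
    chk_sound c5_4 (by norm_num) rfl (by simp)
  have h5 : CB 5 [(7, 6)] 52982 1048576 1572864 6312990052 :=
    chk_sound c5_5 (by norm_num) rfl (by simp)
  have h6 : CB 5 [(7, 6)] 52982 1572864 2097152 3133165964 :=
    chk_sound c5_6 (by norm_num) rfl (by simp)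
  have h7 : CB 5 [(7, 6)] 52982 2097152 2621440 1452529884 :=
    chk_sound c5_7 (by norm_num) rfl (by simp)
  have h8 : CB 5 [(7, 6)] 52982 2621440 3145728 404792643 :=
    chk_sound c5_8 (by norm_num) rfl (by simp)
  exact ((((((((h0.trans h1).trans h2).trans h3).trans h4).trans h5).trans h6).trans h7).trans h8)

theorem B1_5 : CB 1 [] 52982 16 3145728 609945070817 := by
  have h0 : CB 1 [] 52982 16 1536 338781248782 :=
    chk_sound c1_0 (by norm_num) rfl (by simp)
  have h1 : CB 1 [] 52982 1536 32768 143323184799 :=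
    chk_sound c1_1 (by norm_num) rfl (by simp)
  have h2 : CB 1 [] 52982 32768 131072 52605700006 :=
    chk_sound c1_2 (by norm_num) rfl (by simp)
  have h3 : CB 1 [] 52982 131072 524288 44405934450 :=
    chk_sound c1_3 (by norm_num) rfl (by simp)
  have h4 : CB 1 [] 52982 524288 1048576 17271602289 :=
    chk_sound c1_4 (by norm_num) rfl (by simp)
  have h5 : CB 1 [] 52982 1048576 1572864 7576526333 :=
    chk_sound c1_5 (by norm_num) rfl (by simp)
  have h6 : CB 1 [] 52982 1572864 2097152 3755655604 :=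
    chk_sound c1_6 (by norm_num) rfl (by simp)
  have h7 : CB 1 [] 52982 2097152 2621440 1738258913 :=
    chk_sound c1_7 (by norm_num) rfl (by simp)
  have h8 : CB 1 [] 52982 2621440 3145728 486959641 :=
    chk_sound c1_8 (by norm_num) rfl (by simp)
  exact ((((((((h0.trans h1).trans h2).trans h3).trans h4).trans h5).trans h6).trans h7).trans h8)

theorem B5_5 : CB 5 [] 52982 16 3145728 621891250150 := by
  have h0 : CB 5 [] 52982 16 1536 348929082333 :=
    chk_sound c5_0 (by norm_num) rfl (by simp)
  have h1 : CB 5 [] 52982 1536 32768 144816021335 :=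
    chk_sound c5_1 (by norm_num) rfl (by simp)
  have h2 : CB 5 [] 52982 32768 131072 52920424048 :=
    chk_sound c5_2 (by norm_num) rfl (by simp)
  have h3 : CB 5 [] 52982 131072 524288 44389167873 :=
    chk_sound c5_3 (by norm_num) rfl (by simp)
  have h4 : CB 5 [] 52982 524288 1048576 17278596764 :=
    chk_sound c5_4 (by norm_num) rfl (by simp)
  have h5 : CB 5 [] 52982 1048576 1572864 7573100852 :=
    chk_sound c5_5 (by norm_num) rfl (by simp)
  have h6 : CB 5 [] 52982 1572864 2097152 3757395072 :=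
    chk_sound c5_6 (by norm_num) rfl (by simp)
  have h7 : CB 5 [] 52982 2097152 2621440 1741490296 :=
    chk_sound c5_7 (by norm_num) rfl (by simp)
  have h8 : CB 5 [] 52982 2621440 3145728 485971577 :=
    chk_sound c5_8 (by norm_num) rfl (by simp)
  exact ((((((((h0.trans h1).trans h2).trans h3).trans h4).trans h5).trans h6).trans h7).trans h8)

end Pool.Agent.Helper17.Psi
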