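import Pool.Agent.Helper17.Psi.Sieve
import Pool.Agent.Helper17.Psi.Plist

/-!
# Kernel checks of chunks
-/

namespace Pool.Agent.Helper17.Psi

theorem c1_0 : chk 1 16 1520 P0
  [(1, 16), (1, 32), (1, 64), (1, 128), (2, 128), (4, 128), (8, 64)]
  [([(7, 2), (19, 6)], 28900, 253227888475),
   ([(7, 2), (31, 10)], 28900, 265173530936),
   ([(7, 2)], 28900, 270971087398),
   ([(13, 4), (19, 6)], 28900, 284653175268),
   ([(13, 4), (31, 10)], 28900, 295829803032),
   ([(13, 4)], 28900, 304378228256),
   ([(19, 6)], 28900, 318623697893),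
   ([], 28900, 338794686538),
   ([(5, 3), (7, 2)], 52982, 206191847088),
   ([(5, 3), (11, 7)], 52982, 233236520128),
   ([(5, 3)], 52982, 256693177541),
   ([(7, 2)], 52982, 270959889268),
   ([], 52982, 338781248782)] = true := by
  decide +kernel

theorem c1_1 : chk 1 1536 31232 P1
  [(8, 64), (16, 128), (32, 128), (64, 128), (128, 128)]
  [([(7, 2), (19, 6)], 28900, 112648491706),
   ([(7, 2), (31, 10)], 28900, 115634102904),
   ([(7, 2)], 28900, 119279215333),
   ([(13, 4), (19, 6)], 28900, 124342514127),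
   ([(13, 4), (31, 10)], 28900, 127567297892),
   ([(13, 4)], 28900, 131694186312),
   ([(19, 6)], 28900, 135451500931),
   ([], 28900, 143522559677),
   ([(5, 3), (7, 2)], 52982, 89390623043),
   ([(5, 3), (11, 7)], 52982, 96751927124),
   ([(5, 3)], 52982, 107643541087),
   ([(7, 2)], 52982, 119113049533),
   ([], 52982, 143323184799)] = true := by
  decide +kernel

theorem c1_2 : chk 1 32768 98304 P2
  [(256, 128), (512, 128)]
  [([(7, 2), (19, 6)], 28900, 41754809365),
   ([(7, 2), (31, 10)], 28900, 42741488103),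
   ([(7, 2)], 28900, 44263934603),
   ([(13, 4), (19, 6)], 28900, 45973328493),
   ([(13, 4), (31, 10)], 28900, 47064191430),
   ([(13, 4)], 28900, 48700108394),
   ([(19, 6)], 28900, 50175497315),
   ([], 28900, 53149062172),
   ([(5, 3), (7, 2)], 52982, 32843844369),
   ([(5, 3), (11, 7)], 52982, 35542281548),
   ([(5, 3)], 52982, 39486882946),
   ([(7, 2)], 52982, 43811289331),
   ([], 52982, 52605700006)] = true := by
  decide +kernel

theorem c1_3 : chk 1 131072 393216 P3
  [(1024, 128), (2048, 128)]
  [([(7, 2), (19, 6)], 28900, 36483895089),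
   ([(7, 2), (31, 10)], 28900, 37329512001),
   ([(7, 2)], 28900, 38614934163),
   ([(13, 4), (19, 6)], 28900, 40174286949),
   ([(13, 4), (31, 10)], 28900, 41110311667),
   ([(13, 4)], 28900, 42519582296),
   ([(19, 6)], 28900, 43807893245),
   ([], 28900, 46375432656),
   ([(5, 3), (7, 2)], 52982, 27751628468),
   ([(5, 3), (11, 7)], 52982, 30004405376),
   ([(5, 3)], 52982, 33323140828),
   ([(7, 2)], 52982, 36974733225),
   ([], 52982, 44405934450)] = true := by
  decide +kernel

end Pool.Agent.Helper17.Psi
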