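import Pool.Agent.Helper17.Psi.Ana
import Pool.Agent.Helper17.Psi.Chain

/-!
# The leaves of the case distinction
-/

namespace Pool.Agent.Helper17.Psi

theorem baseA0 : ∀ q < 96, (q.Prime ∧ q % 6 = 1 ∧ ¬ 7 ∣ q + 1 ∧ ¬ 19 ∣ q + 1) →
    q ∈ ([7, 19, 31, 43, 61, 67, 73, 79] : List ℕ) := by
  decide +kernel

theorem leafA0 (T : Finset ℕ) (hp : ∀ q ∈ T, q.Prime) (h6 : ∀ q ∈ T, q % 6 = 1)
    (hc : T.card ≤ 1000000) (hx : ∀ m ∈ T, ∀ q ∈ T, ¬ m ∣ q + 1)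
    (h7 : 7 ∈ T) (h19 : 19 ∈ T) :
    ∏ q ∈ T, (1 + 1 / (q : ℝ)) ≤ ((9 : ℕ) : ℝ) / ((4 : ℕ) : ℝ) := by
  have hE : ∀ p ∈ ([(7, 2), (19, 6)] : List (ℕ × ℕ)), ∀ q ∈ T, ¬ p.1 ∣ q + 1 := by
    intro p hpE q hq
    rw [List.mem_cons, List.mem_singleton] at hpE
    rcases hpE with rfl | rfl
    · exact (hx 7 h7) q hq
    · exact (hx 19 h19) q hq
  have hW : wt 5767168 = 28900 := by decide +kernel
  have hb := leafA 1000000 5767168 481188311542 [(7, 2), (19, 6)] (by norm_num)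
    (by rw [hW]; exact A0) T hp h6 hc hE
  rw [hW] at hb
  exact leaf_fin T _ hb [7, 19, 31, 43, 61, 67, 73, 79] (by decide)
    (fun q hq hlt => baseA0 q hlt ⟨hp q hq, h6 q hq, (hx 7 h7) q hq, (hx 19 h19) q hq⟩)
    (by decide) 511 1000 9 4 (by norm_num) (by norm_num) (by norm_num) (by decide +kernel)

theorem baseA1 : ∀ q < 96, (q.Prime ∧ q % 6 = 1 ∧ ¬ 7 ∣ q + 1 ∧ ¬ 31 ∣ q + 1 ∧ q ≠ 19) →
    q ∈ ([7, 31, 37, 43, 67, 73, 79] : List ℕ) := by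
  decide +kernel

theorem leafA1 (T : Finset ℕ) (hp : ∀ q ∈ T, q.Prime) (h6 : ∀ q ∈ T, q % 6 = 1)
    (hc : T.card ≤ 1000000) (hx : ∀ m ∈ T, ∀ q ∈ T, ¬ m ∣ q + 1)
    (h7 : 7 ∈ T) (h31 : 31 ∈ T) (n19 : 19 ∉ T) :
    ∏ q ∈ T, (1 + 1 / (q : ℝ)) ≤ ((9 : ℕ) : ℝ) / ((4 : ℕ) : ℝ) := by
  have hE : ∀ p ∈ ([(7, 2), (31, 10)] : List (ℕ × ℕ)), ∀ q ∈ T, ¬ p.1 ∣ q + 1 := by
    intro p hpE q hq
    rw [List.mem_cons, List.mem_singleton] at hpE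
    rcases hpE with rfl | rfl
    · exact (hx 7 h7) q hq
    · exact (hx 31 h31) q hq
  have hW : wt 5767168 = 28900 := by decide +kernel
  have hb := leafA 1000000 5767168 498836714271 [(7, 2), (31, 10)] (by norm_num)
    (by rw [hW]; exact A1) T hp h6 hc hE
  rw [hW] at hb
  exact leaf_fin T _ hb [7, 31, 37, 43, 67, 73, 79] (by decide)
    (fun q hq hlt => baseA1 q hlt ⟨hp q hq, h6 q hq, (hx 7 h7) q hq, (hx 31 h31) q hq, fun e => n19 (e ▸ hq)⟩)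
    (by decide) 528 1000 9 4 (by norm_num) (by norm_num) (by norm_num) (by decide +kernel)

theorem baseA2 : ∀ q < 96, (q.Prime ∧ q % 6 = 1 ∧ ¬ 7 ∣ q + 1 ∧ q ≠ 19 ∧ q ≠ 31) →
    q ∈ ([7, 37, 43, 61, 67, 73, 79] : List ℕ) := by
  decide +kernel

theorem leafA2 (T : Finset ℕ) (hp : ∀ q ∈ T, q.Prime) (h6 : ∀ q ∈ T, q % 6 = 1)
    (hc : T.card ≤ 1000000) (hx : ∀ m ∈ T, ∀ q ∈ T, ¬ m ∣ q + 1)
    (h7 : 7 ∈ T) (n19 : 19 ∉ T) (n31 : 31 ∉ T) :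
    ∏ q ∈ T, (1 + 1 / (q : ℝ)) ≤ ((9 : ℕ) : ℝ) / ((4 : ℕ) : ℝ) := by
  have hE : ∀ p ∈ ([(7, 2)] : List (ℕ × ℕ)), ∀ q ∈ T, ¬ p.1 ∣ q + 1 := by
    intro p hpE q hq
    rw [List.mem_singleton] at hpE
    subst hpE
    exact (hx 7 h7) q hq
  have hW : wt 5767168 = 28900 := by decide +kernel
  have hb := leafA 1000000 5767168 512394921227 [(7, 2)] (by norm_num)
    (by rw [hW]; exact A2) T hp h6 hc hE
  rw [hW] at hb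
  exact leaf_fin T _ hb [7, 37, 43, 61, 67, 73, 79] (by decide)
    (fun q hq hlt => baseA2 q hlt ⟨hp q hq, h6 q hq, (hx 7 h7) q hq, fun e => n19 (e ▸ hq), fun e => n31 (e ▸ hq)⟩)
    (by decide) 542 1000 9 4 (by norm_num) (by norm_num) (by norm_num) (by decide +kernel)

theorem baseA3 : ∀ q < 96, (q.Prime ∧ q % 6 = 1 ∧ ¬ 13 ∣ q + 1 ∧ ¬ 19 ∣ q + 1 ∧ q ≠ 7) →
    q ∈ ([13, 19, 31, 43, 61, 67, 73, 79] : List ℕ) := by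
  decide +kernel

theorem leafA3 (T : Finset ℕ) (hp : ∀ q ∈ T, q.Prime) (h6 : ∀ q ∈ T, q % 6 = 1)
    (hc : T.card ≤ 1000000) (hx : ∀ m ∈ T, ∀ q ∈ T, ¬ m ∣ q + 1)
    (h13 : 13 ∈ T) (h19 : 19 ∈ T) (n7 : 7 ∉ T) :
    ∏ q ∈ T, (1 + 1 / (q : ℝ)) ≤ ((9 : ℕ) : ℝ) / ((4 : ℕ) : ℝ) := by
  have hE : ∀ p ∈ ([(13, 4), (19, 6)] : List (ℕ × ℕ)), ∀ q ∈ T, ¬ p.1 ∣ q + 1 := by
    intro p hpE q hq
    rw [List.mem_cons, List.mem_singleton] at hpE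
    rcases hpE with rfl | rfl
    · exact (hx 13 h13) q hq
    · exact (hx 19 h19) q hq
  have hW : wt 5767168 = 28900 := by decide +kernel
  have hb := leafA 1000000 5767168 535911860428 [(13, 4), (19, 6)] (by norm_num)
    (by rw [hW]; exact A3) T hp h6 hc hE
  rw [hW] at hb
  exact leaf_fin T _ hb [13, 19, 31, 43, 61, 67, 73, 79] (by decide)
    (fun q hq hlt => baseA3 q hlt ⟨hp q hq, h6 q hq, (hx 13 h13) q hq, (hx 19 h19) q hq, fun e => n7 (e ▸ hq)⟩)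
    (by decide) 565 1000 9 4 (by norm_num) (by norm_num) (by norm_num) (by decide +kernel)

theorem baseA4 : ∀ q < 96, (q.Prime ∧ q % 6 = 1 ∧ ¬ 13 ∣ q + 1 ∧ ¬ 31 ∣ q + 1 ∧ q ≠ 7 ∧ q ≠ 19) →
    q ∈ ([13, 31, 37, 43, 67, 73, 79] : List ℕ) := by
  decide +kernel

theorem leafA4 (T : Finset ℕ) (hp : ∀ q ∈ T, q.Prime) (h6 : ∀ q ∈ T, q % 6 = 1)
    (hc : T.card ≤ 1000000) (hx : ∀ m ∈ T, ∀ q ∈ T, ¬ m ∣ q + 1)
    (h13 : 13 ∈ T) (h31 : 31 ∈ T) (n7 : 7 ∉ T) (n19 : 19 ∉ T) :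
    ∏ q ∈ T, (1 + 1 / (q : ℝ)) ≤ ((9 : ℕ) : ℝ) / ((4 : ℕ) : ℝ) := by
  have hE : ∀ p ∈ ([(13, 4), (31, 10)] : List (ℕ × ℕ)), ∀ q ∈ T, ¬ p.1 ∣ q + 1 := by
    intro p hpE q hq
    rw [List.mem_cons, List.mem_singleton] at hpE
    rcases hpE with rfl | rfl
    · exact (hx 13 h13) q hq
    · exact (hx 31 h31) q hq
  have hW : wt 5767168 = 28900 := by decide +kernel
  have hb := leafA 1000000 5767168 553310058963 [(13, 4), (31, 10)] (by norm_num)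
    (by rw [hW]; exact A4) T hp h6 hc hE
  rw [hW] at hb
  exact leaf_fin T _ hb [13, 31, 37, 43, 67, 73, 79] (by decide)
    (fun q hq hlt => baseA4 q hlt ⟨hp q hq, h6 q hq, (hx 13 h13) q hq, (hx 31 h31) q hq, fun e => n7 (e ▸ hq), fun e => n19 (e ▸ hq)⟩)
    (by decide) 583 1000 9 4 (by norm_num) (by norm_num) (by norm_num) (by decide +kernel)

theorem baseA5 : ∀ q < 96, (q.Prime ∧ q % 6 = 1 ∧ ¬ 13 ∣ q + 1 ∧ q ≠ 7 ∧ q ≠ 19 ∧ q ≠ 31) →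
    q ∈ ([13, 37, 43, 61, 67, 73, 79] : List ℕ) := by
  decide +kernel

theorem leafA5 (T : Finset ℕ) (hp : ∀ q ∈ T, q.Prime) (h6 : ∀ q ∈ T, q % 6 = 1)
    (hc : T.card ≤ 1000000) (hx : ∀ m ∈ T, ∀ q ∈ T, ¬ m ∣ q + 1)
    (h13 : 13 ∈ T) (n7 : 7 ∉ T) (n19 : 19 ∉ T) (n31 : 31 ∉ T) :
    ∏ q ∈ T, (1 + 1 / (q : ℝ)) ≤ ((9 : ℕ) : ℝ) / ((4 : ℕ) : ℝ) := by
  have hE : ∀ p ∈ ([(13, 4)] : List (ℕ × ℕ)), ∀ q ∈ T, ¬ p.1 ∣ q + 1 := by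
    intro p hpE q hq
    rw [List.mem_singleton] at hpE
    subst hpE
    exact (hx 13 h13) q hq
  have hW : wt 5767168 = 28900 := by decide +kernel
  have hb := leafA 1000000 5767168 570470625189 [(13, 4)] (by norm_num)
    (by rw [hW]; exact A5) T hp h6 hc hE
  rw [hW] at hb
  exact leaf_fin T _ hb [13, 37, 43, 61, 67, 73, 79] (by decide)
    (fun q hq hlt => baseA5 q hlt ⟨hp q hq, h6 q hq, (hx 13 h13) q hq, fun e => n7 (e ▸ hq), fun e => n19 (e ▸ hq), fun e => n31 (e ▸ hq)⟩)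
    (by decide) 600 1000 9 4 (by norm_num) (by norm_num) (by norm_num) (by decide +kernel)

theorem baseA6 : ∀ q < 96, (q.Prime ∧ q % 6 = 1 ∧ ¬ 19 ∣ q + 1 ∧ q ≠ 7 ∧ q ≠ 13) →
    q ∈ ([19, 31, 43, 61, 67, 73, 79] : List ℕ) := by
  decide +kernel

theorem leafA6 (T : Finset ℕ) (hp : ∀ q ∈ T, q.Prime) (h6 : ∀ q ∈ T, q % 6 = 1)
    (hc : T.card ≤ 1000000) (hx : ∀ m ∈ T, ∀ q ∈ T, ¬ m ∣ q + 1)
    (h19 : 19 ∈ T) (n7 : 7 ∉ T) (n13 : 13 ∉ T) :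
    ∏ q ∈ T, (1 + 1 / (q : ℝ)) ≤ ((9 : ℕ) : ℝ) / ((4 : ℕ) : ℝ) := by
  have hE : ∀ p ∈ ([(19, 6)] : List (ℕ × ℕ)), ∀ q ∈ T, ¬ p.1 ∣ q + 1 := by
    intro p hpE q hq
    rw [List.mem_singleton] at hpE
    subst hpE
    exact (hx 19 h19) q hq
  have hW : wt 5767168 = 28900 := by decide +kernel
  have hb := leafA 1000000 5767168 592539912237 [(19, 6)] (by norm_num)
    (by rw [hW]; exact A6) T hp h6 hc hE
  rw [hW] at hb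
  exact leaf_fin T _ hb [19, 31, 43, 61, 67, 73, 79] (by decide)
    (fun q hq hlt => baseA6 q hlt ⟨hp q hq, h6 q hq, (hx 19 h19) q hq, fun e => n7 (e ▸ hq), fun e => n13 (e ▸ hq)⟩)
    (by decide) 622 1000 9 4 (by norm_num) (by norm_num) (by norm_num) (by decide +kernel)

theorem baseA7 : ∀ q < 96, (q.Prime ∧ q % 6 = 1 ∧ q ≠ 7 ∧ q ≠ 13 ∧ q ≠ 19) →
    q ∈ ([31, 37, 43, 61, 67, 73, 79] : List ℕ) := by
  decide +kernel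

theorem leafA7 (T : Finset ℕ) (hp : ∀ q ∈ T, q.Prime) (h6 : ∀ q ∈ T, q % 6 = 1)
    (hc : T.card ≤ 1000000)
    (n7 : 7 ∉ T) (n13 : 13 ∉ T) (n19 : 19 ∉ T) :
    ∏ q ∈ T, (1 + 1 / (q : ℝ)) ≤ ((9 : ℕ) : ℝ) / ((4 : ℕ) : ℝ) := by
  have hE : ∀ p ∈ ([] : List (ℕ × ℕ)), ∀ q ∈ T, ¬ p.1 ∣ q + 1 := by
    intro p hpE; simp at hpE
  have hW : wt 5767168 = 28900 := by decide +kernel
  have hb := leafA 1000000 5767168 628950113463 [] (by norm_num)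
    (by rw [hW]; exact A7) T hp h6 hc hE
  rw [hW] at hb
  exact leaf_fin T _ hb [31, 37, 43, 61, 67, 73, 79] (by decide)
    (fun q hq hlt => baseA7 q hlt ⟨hp q hq, h6 q hq, fun e => n7 (e ▸ hq), fun e => n13 (e ▸ hq), fun e => n19 (e ▸ hq)⟩)
    (by decide) 658 1000 9 4 (by norm_num) (by norm_num) (by norm_num) (by decide +kernel)

theorem baseB0 : ∀ q < 96, (q.Prime ∧ (q % 6 = 1 ∨ q % 6 = 5) ∧ ¬ 5 ∣ q + 1 ∧ ¬ 7 ∣ q + 1) →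
    q ∈ ([5, 7, 11, 17, 23, 31, 37, 43, 47, 53, 61, 67, 71, 73] : List ℕ) := by
  decide +kernel

theorem leafB0 (T : Finset ℕ) (hp : ∀ q ∈ T, q.Prime) (h6 : ∀ q ∈ T, (q % 6 = 1 ∨ q % 6 = 5))
    (hc : T.card ≤ 1000000) (hx : ∀ m ∈ T, ∀ q ∈ T, ¬ m ∣ q + 1)
    (h7 : 7 ∈ T) (x5 : ∀ q ∈ T, ¬ 5 ∣ q + 1) :
    ∏ q ∈ T, (1 + 1 / (q : ℝ)) ≤ ((5 : ℕ) : ℝ) / ((1 : ℕ) : ℝ) := by
  have hE1 : ∀ p ∈ ([(5, 3), (7, 2)] : List (ℕ × ℕ)), ∀ q ∈ T, ¬ p.1 ∣ q + 1 := by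
    intro p hpE q hq
    rw [List.mem_cons, List.mem_singleton] at hpE
    rcases hpE with rfl | rfl
    · exact (x5) q hq
    · exact (hx 7 h7) q hq
  have hE5 : ∀ p ∈ ([(5, 4), (7, 6)] : List (ℕ × ℕ)), ∀ q ∈ T, ¬ p.1 ∣ q + 1 := by
    intro p hpE q hq
    rw [List.mem_cons, List.mem_singleton] at hpE
    rcases hpE with rfl | rfl
    · exact (x5) q hq
    · exact (hx 7 h7) q hq
  have hW : wt 3145728 = 52982 := by decide +kernel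
  have hb := leafB 1000000 3145728 375461037955 399571312373 [(5, 3), (7, 2)] [(5, 4), (7, 6)] (by norm_num)
    (by rw [hW]; exact B1_0) (by rw [hW]; exact B5_0) T hp h6 hc hE1 hE5
  rw [hW] at hb
  exact leaf_fin T _ hb [5, 7, 11, 17, 23, 31, 37, 43, 47, 53, 61, 67, 71, 73] (by decide)
    (fun q hq hlt => baseB0 q hlt ⟨hp q hq, h6 q hq, (x5) q hq, (hx 7 h7) q hq⟩)
    (by decide) 829 1000 5 1 (by norm_num) (by norm_num) (by norm_num) (by decide +kernel)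

theorem baseB1 : ∀ q < 96, (q.Prime ∧ (q % 6 = 1 ∨ q % 6 = 5) ∧ ¬ 5 ∣ q + 1 ∧ ¬ 11 ∣ q + 1 ∧ q ≠ 7) →
    q ∈ ([5, 11, 13, 17, 23, 31, 37, 41, 47, 53, 61, 67, 71, 73, 83] : List ℕ) := by
  decide +kernel

theorem leafB1 (T : Finset ℕ) (hp : ∀ q ∈ T, q.Prime) (h6 : ∀ q ∈ T, (q % 6 = 1 ∨ q % 6 = 5))
    (hc : T.card ≤ 1000000) (hx : ∀ m ∈ T, ∀ q ∈ T, ¬ m ∣ q + 1)
    (h11 : 11 ∈ T) (n7 : 7 ∉ T) (x5 : ∀ q ∈ T, ¬ 5 ∣ q + 1) :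
    ∏ q ∈ T, (1 + 1 / (q : ℝ)) ≤ ((5 : ℕ) : ℝ) / ((1 : ℕ) : ℝ) := by
  have hE1 : ∀ p ∈ ([(5, 3), (11, 7)] : List (ℕ × ℕ)), ∀ q ∈ T, ¬ p.1 ∣ q + 1 := by
    intro p hpE q hq
    rw [List.mem_cons, List.mem_singleton] at hpE
    rcases hpE with rfl | rfl
    · exact (x5) q hq
    · exact (hx 11 h11) q hq
  have hE5 : ∀ p ∈ ([(5, 4), (11, 10)] : List (ℕ × ℕ)), ∀ q ∈ T, ¬ p.1 ∣ q + 1 := by
    intro p hpE q hq
    rw [List.mem_cons, List.mem_singleton] at hpE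
    rcases hpE with rfl | rfl
    · exact (x5) q hq
    · exact (hx 11 h11) q hq
  have hW : wt 3145728 = 52982 := by decide +kernel
  have hb := leafB 1000000 3145728 416335082899 421160723516 [(5, 3), (11, 7)] [(5, 4), (11, 10)] (by norm_num)
    (by rw [hW]; exact B1_1) (by rw [hW]; exact B5_1) T hp h6 hc hE1 hE5
  rw [hW] at hb
  exact leaf_fin T _ hb [5, 11, 13, 17, 23, 31, 37, 41, 47, 53, 61, 67, 71, 73, 83] (by decide)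
    (fun q hq hlt => baseB1 q hlt ⟨hp q hq, h6 q hq, (x5) q hq, (hx 11 h11) q hq, fun e => n7 (e ▸ hq)⟩)
    (by decide) 891 1000 5 1 (by norm_num) (by norm_num) (by norm_num) (by decide +kernel)

theorem baseB2 : ∀ q < 96, (q.Prime ∧ (q % 6 = 1 ∨ q % 6 = 5) ∧ ¬ 5 ∣ q + 1 ∧ q ≠ 7 ∧ q ≠ 11) →
    q ∈ ([5, 13, 17, 23, 31, 37, 41, 43, 47, 53, 61, 67, 71, 73, 83] : List ℕ) := by
  decide +kernel

theorem leafB2 (T : Finset ℕ) (hp : ∀ q ∈ T, q.Prime) (h6 : ∀ q ∈ T, (q % 6 = 1 ∨ q % 6 = 5))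
    (hc : T.card ≤ 1000000)
    (n7 : 7 ∉ T) (n11 : 11 ∉ T) (x5 : ∀ q ∈ T, ¬ 5 ∣ q + 1) :
    ∏ q ∈ T, (1 + 1 / (q : ℝ)) ≤ ((5 : ℕ) : ℝ) / ((1 : ℕ) : ℝ) := by
  have hE1 : ∀ p ∈ ([(5, 3)] : List (ℕ × ℕ)), ∀ q ∈ T, ¬ p.1 ∣ q + 1 := by
    intro p hpE q hq
    rw [List.mem_singleton] at hpE
    subst hpE
    exact (x5) q hq
  have hE5 : ∀ p ∈ ([(5, 4)] : List (ℕ × ℕ)), ∀ q ∈ T, ¬ p.1 ∣ q + 1 := by
    intro p hpE q hq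
    rw [List.mem_singleton] at hpE
    subst hpE
    exact (x5) q hq
  have hW : wt 3145728 = 52982 := by decide +kernel
  have hb := leafB 1000000 3145728 460265337503 473582020542 [(5, 3)] [(5, 4)] (by norm_num)
    (by rw [hW]; exact B1_2) (by rw [hW]; exact B5_2) T hp h6 hc hE1 hE5
  rw [hW] at hb
  exact leaf_fin T _ hb [5, 13, 17, 23, 31, 37, 41, 43, 47, 53, 61, 67, 71, 73, 83] (by decide)
    (fun q hq hlt => baseB2 q hlt ⟨hp q hq, h6 q hq, (x5) q hq, fun e => n7 (e ▸ hq), fun e => n11 (e ▸ hq)⟩)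
    (by decide) 987 1000 5 1 (by norm_num) (by norm_num) (by norm_num) (by decide +kernel)

theorem baseB3 : ∀ q < 96, (q.Prime ∧ (q % 6 = 1 ∨ q % 6 = 5) ∧ ¬ 5 ∣ q + 1 ∧ q ≠ 5) →
    q ∈ ([7, 11, 13, 17, 23, 31, 37, 41, 43, 47, 53, 61, 67, 71, 73, 83] : List ℕ) := by
  decide +kernel

theorem leafB3 (T : Finset ℕ) (hp : ∀ q ∈ T, q.Prime) (h6 : ∀ q ∈ T, (q % 6 = 1 ∨ q % 6 = 5))
    (hc : T.card ≤ 1000000)
    (n5 : 5 ∉ T) (x5 : ∀ q ∈ T, ¬ 5 ∣ q + 1) :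
    ∏ q ∈ T, (1 + 1 / (q : ℝ)) ≤ ((5 : ℕ) : ℝ) / ((1 : ℕ) : ℝ) := by
  have hE1 : ∀ p ∈ ([(5, 3)] : List (ℕ × ℕ)), ∀ q ∈ T, ¬ p.1 ∣ q + 1 := by
    intro p hpE q hq
    rw [List.mem_singleton] at hpE
    subst hpE
    exact (x5) q hq
  have hE5 : ∀ p ∈ ([(5, 4)] : List (ℕ × ℕ)), ∀ q ∈ T, ¬ p.1 ∣ q + 1 := by
    intro p hpE q hq
    rw [List.mem_singleton] at hpE
    subst hpE
    exact (x5) q hq
  have hW : wt 3145728 = 52982 := by decide +kernel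
  have hb := leafB 1000000 3145728 460265337503 473582020542 [(5, 3)] [(5, 4)] (by norm_num)
    (by rw [hW]; exact B1_2) (by rw [hW]; exact B5_2) T hp h6 hc hE1 hE5
  rw [hW] at hb
  exact leaf_fin T _ hb [7, 11, 13, 17, 23, 31, 37, 41, 43, 47, 53, 61, 67, 71, 73, 83] (by decide)
    (fun q hq hlt => baseB3 q hlt ⟨hp q hq, h6 q hq, (x5) q hq, fun e => n5 (e ▸ hq)⟩)
    (by decide) 987 1000 5 1 (by norm_num) (by norm_num) (by norm_num) (by decide +kernel)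

theorem baseB4 : ∀ q < 96, (q.Prime ∧ (q % 6 = 1 ∨ q % 6 = 5) ∧ ¬ 7 ∣ q + 1) →
    q ∈ ([5, 7, 11, 17, 19, 23, 29, 31, 37, 43, 47, 53, 59, 61, 67, 71, 73, 79, 89] : List ℕ) := by
  decide +kernel

theorem leafB4 (T : Finset ℕ) (hp : ∀ q ∈ T, q.Prime) (h6 : ∀ q ∈ T, (q % 6 = 1 ∨ q % 6 = 5))
    (hc : T.card ≤ 1000000)
    (x7 : ∀ q ∈ T, ¬ 7 ∣ q + 1) :
    ∏ q ∈ T, (1 + 1 / (q : ℝ)) ≤ ((7 : ℕ) : ℝ) / ((1 : ℕ) : ℝ) := by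
  have hE1 : ∀ p ∈ ([(7, 2)] : List (ℕ × ℕ)), ∀ q ∈ T, ¬ p.1 ∣ q + 1 := by
    intro p hpE q hq
    rw [List.mem_singleton] at hpE
    subst hpE
    exact (x7) q hq
  have hE5 : ∀ p ∈ ([(7, 6)] : List (ℕ × ℕ)), ∀ q ∈ T, ¬ p.1 ∣ q + 1 := by
    intro p hpE q hq
    rw [List.mem_singleton] at hpE
    subst hpE
    exact (x7) q hq
  have hW : wt 3145728 = 52982 := by decide +kernel
  have hb := leafB 1000000 3145728 496558275130 526343080711 [(7, 2)] [(7, 6)] (by norm_num)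
    (by rw [hW]; exact B1_4) (by rw [hW]; exact B5_4) T hp h6 hc hE1 hE5
  rw [hW] at hb
  exact leaf_fin T _ hb [5, 7, 11, 17, 19, 23, 29, 31, 37, 43, 47, 53, 59, 61, 67, 71, 73, 79, 89] (by decide)
    (fun q hq hlt => baseB4 q hlt ⟨hp q hq, h6 q hq, (x7) q hq⟩)
    (by decide) 1076 1000 7 1 (by norm_num) (by norm_num) (by norm_num) (by decide +kernel)

theorem baseB5 : ∀ q < 96, (q.Prime ∧ (q % 6 = 1 ∨ q % 6 = 5)) →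
    q ∈ ([5, 7, 11, 13, 17, 19, 23, 29, 31, 37, 41, 43, 47, 53, 59, 61, 67, 71, 73, 79, 83, 89] : List ℕ) := by
  decide +kernel

theorem leafB5 (T : Finset ℕ) (hp : ∀ q ∈ T, q.Prime) (h6 : ∀ q ∈ T, (q % 6 = 1 ∨ q % 6 = 5))
    (hc : T.card ≤ 1000000)
    :
    ∏ q ∈ T, (1 + 1 / (q : ℝ)) ≤ ((11 : ℕ) : ℝ) / ((1 : ℕ) : ℝ) := by
  have hE1 : ∀ p ∈ ([] : List (ℕ × ℕ)), ∀ q ∈ T, ¬ p.1 ∣ q + 1 := by
    intro p hpE; simp at hpE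
  have hE5 : ∀ p ∈ ([] : List (ℕ × ℕ)), ∀ q ∈ T, ¬ p.1 ∣ q + 1 := by
    intro p hpE; simp at hpE
  have hW : wt 3145728 = 52982 := by decide +kernel
  have hb := leafB 1000000 3145728 609945070817 621891250150 [] [] (by norm_num)
    (by rw [hW]; exact B1_5) (by rw [hW]; exact B5_5) T hp h6 hc hE1 hE5
  rw [hW] at hb
  exact leaf_fin T _ hb [5, 7, 11, 13, 17, 19, 23, 29, 31, 37, 41, 43, 47, 53, 59, 61, 67, 71, 73, 79, 83, 89] (by decide)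
    (fun q hq hlt => baseB5 q hlt ⟨hp q hq, h6 q hq⟩)
    (by decide) 1285 1000 11 1 (by norm_num) (by norm_num) (by norm_num) (by decide +kernel)

end Pool.Agent.Helper17.Psi
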