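import Mathlib

/-!
# Elementary consequences of `ψ(n) ≡ 1 (mod n)` for composite `n`
-/

namespace Pool.Agent.Helper17.Psi

open Finset

/-- the hypothesis on `n` -/
def Sol (n : ℕ) : Prop :=
  (n / ∏ p ∈ n.primeFactors, p) * (∏ p ∈ n.primeFactors, (p + 1)) ≡ 1 [MOD n]

theorem rad_eq (n : ℕ) (hn : 1 < n) (h : Sol n) : ∏ p ∈ n.primeFactors, p = n := by
  have hd : ∏ p ∈ n.primeFactors, p ∣ n := Nat.prod_primeFactors_dvd n
  have hpos : 0 < ∏ p ∈ n.primeFactors, p := Nat.pos_of_dvd_of_pos hd (by omega)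
  obtain ⟨c, hc⟩ := hd
  have hdiv : n / ∏ p ∈ n.primeFactors, p = c :=
    Nat.div_eq_of_eq_mul_right hpos hc
  by_cases hc1 : c = 1
  · rw [hc1, mul_one] at hc; exact hc.symm
  · exfalso
    obtain ⟨q, hq, hqc⟩ := Nat.exists_prime_and_dvd hc1
    have hqn : q ∣ n := by rw [hc]; exact Dvd.dvd.mul_left hqc _
    unfold Sol at h
    rw [hdiv] at h
    have h1 : c * ∏ p ∈ n.primeFactors, (p + 1) ≡ 1 [MOD q] := h.of_dvd hqn
    have h2 : c * ∏ p ∈ n.primeFactors, (p + 1) ≡ 0 [MOD q] :=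
      (Nat.modEq_zero_iff_dvd).mpr (Dvd.dvd.mul_right hqc _)
    have h3 : (1 : ℕ) ≡ 0 [MOD q] := h1.symm.trans h2
    have h4 : q ∣ 1 := (Nat.modEq_zero_iff_dvd).mp h3
    exact hq.one_lt.ne' (Nat.dvd_one.mp h4)

theorem prod_succ_gt (T : Finset ℕ) (hT : ∀ q ∈ T, 0 < q) (hne : T.Nonempty) :
    ∏ q ∈ T, q + 1 ≤ ∏ q ∈ T, (q + 1) := by
  induction hne using Finset.Nonempty.cons_induction with
  | singleton a => simp
  | cons a s ha hs ih =>
    rw [Finset.prod_cons, Finset.prod_cons]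
    have h1 := ih (fun q hq => hT q (Finset.mem_cons_of_mem hq))
    have h2 : 0 < ∏ q ∈ s, q :=
      Finset.prod_pos (fun q hq => hT q (Finset.mem_cons_of_mem hq))
    nlinarith

/-- the multiplier `k` -/
theorem exists_k (n : ℕ) (hn : 1 < n) (h : Sol n) :
    ∃ k, ∏ p ∈ n.primeFactors, (p + 1) = k * n + 1 := by
  have hr := rad_eq n hn h
  unfold Sol at h
  rw [hr, Nat.div_self (by omega), one_mul] at h
  have h1 : 1 ≤ ∏ p ∈ n.primeFactors, (p + 1) :=
    Finset.prod_pos (fun p _ => Nat.succ_pos p)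
  have h2 : n ∣ ∏ p ∈ n.primeFactors, (p + 1) - 1 := (Nat.modEq_iff_dvd' h1).mp h.symm
  obtain ⟨k, hk⟩ := h2
  refine ⟨k, ?_⟩
  rw [mul_comm k n]; omega

theorem card_two (n : ℕ) (hn : 1 < n) (hc : ¬ n.Prime) (hr : ∏ p ∈ n.primeFactors, p = n) :
    1 < n.primeFactors.card := by
  by_contra hlt
  have h1 : n.primeFactors.card ≤ 1 := by omega
  obtain ⟨p, hp⟩ := Nat.exists_prime_and_dvd (n := n) (by omega)
  have hpm : p ∈ n.primeFactors := Nat.mem_primeFactors.mpr ⟨hp.1, hp.2, by omega⟩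
  have h2 : n.primeFactors = {p} := by
    apply Finset.eq_singleton_iff_unique_mem.mpr
    exact ⟨hpm, fun x hx => Finset.card_le_one.mp h1 x hx p hpm⟩
  rw [h2, Finset.prod_singleton] at hr
  exact hc (hr ▸ hp.1)

theorem excl (n k : ℕ) (hk : ∏ p ∈ n.primeFactors, (p + 1) = k * n + 1) (r : ℕ) (hr : 2 ≤ r)
    (hd : r ∣ k * n) (q : ℕ) (hq : q ∈ n.primeFactors) : ¬ r ∣ q + 1 := by
  intro h1
  have h2 : q + 1 ∣ ∏ p ∈ n.primeFactors, (p + 1) :=
    Finset.dvd_prod_of_mem (fun p => p + 1) hq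
  rw [hk] at h2
  have h3 : r ∣ k * n + 1 := h1.trans h2
  have h4 : r ∣ 1 := (Nat.dvd_add_right hd).mp h3
  have := Nat.dvd_one.mp h4
  omega

theorem odd_mem (n k : ℕ) (hn : 1 < n) (hc : ¬ n.Prime)
    (hr : ∏ p ∈ n.primeFactors, p = n)
    (hk : ∏ p ∈ n.primeFactors, (p + 1) = k * n + 1) : 2 ∉ n.primeFactors := by
  intro h2
  have hcard := card_two n hn hc hr
  obtain ⟨q, hq, hne⟩ := Finset.exists_mem_ne hcard 2
  have hqp := Nat.prime_of_mem_primeFactors hq
  have hodd : q % 2 = 1 := hqp.eq_two_or_odd.resolve_left hne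
  have h3 : 2 ∣ n := Nat.dvd_of_mem_primeFactors h2
  exact excl n k hk 2 le_rfl (Dvd.dvd.mul_left h3 k) q hq (by omega)

theorem k_odd (n k : ℕ) (hn : 1 < n) (hc : ¬ n.Prime)
    (hr : ∏ p ∈ n.primeFactors, p = n)
    (hk : ∏ p ∈ n.primeFactors, (p + 1) = k * n + 1) : ¬ 2 ∣ k := by
  intro h2
  have h2' := odd_mem n k hn hc hr hk
  have hcard := card_two n hn hc hr
  obtain ⟨q, hq, hne⟩ := Finset.exists_mem_ne hcard 2
  have hqp := Nat.prime_of_mem_primeFactors hq
  have hodd : q % 2 = 1 := hqp.eq_two_or_odd.resolve_left hne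
  exact excl n k hk 2 le_rfl (Dvd.dvd.mul_right h2 n) q hq (by omega)

theorem k_ne_one (n k : ℕ) (hn : 1 < n) (hc : ¬ n.Prime)
    (hr : ∏ p ∈ n.primeFactors, p = n)
    (hk : ∏ p ∈ n.primeFactors, (p + 1) = k * n + 1) : k ≠ 1 := by
  rintro rfl
  have hcard := card_two n hn hc hr
  obtain ⟨q, hq, -⟩ := Finset.exists_mem_ne hcard 2
  have hne : (n.primeFactors.erase q).Nonempty := by
    rw [← Finset.card_pos, Finset.card_erase_of_mem hq]; omega
  have hpos : ∀ x ∈ n.primeFactors.erase q, 0 < x := fun x hx =>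
    (Nat.prime_of_mem_primeFactors (Finset.mem_of_mem_erase hx)).pos
  have h1 := prod_succ_gt _ hpos hne
  have h2 : q * ∏ x ∈ n.primeFactors.erase q, x = n := by
    rw [Finset.mul_prod_erase _ (fun x => x) hq]; exact hr
  have h3 : (q + 1) * ∏ x ∈ n.primeFactors.erase q, (x + 1) = n + 1 := by
    rw [Finset.mul_prod_erase _ (fun x => x + 1) hq, hk]; ring
  have h4 := Nat.mul_le_mul_left (q + 1) h1
  have hqp := (Nat.prime_of_mem_primeFactors hq).pos
  nlinarith

theorem k_ge_three (n k : ℕ) (hn : 1 < n) (hc : ¬ n.Prime)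
    (hr : ∏ p ∈ n.primeFactors, p = n)
    (hk : ∏ p ∈ n.primeFactors, (p + 1) = k * n + 1) : 3 ≤ k := by
  have h1 := k_odd n k hn hc hr hk
  have h2 := k_ne_one n k hn hc hr hk
  have h3 : k ≠ 0 := by rintro rfl; exact h1 (dvd_zero 2)
  have h4 : k ≠ 2 := by rintro rfl; exact h1 (dvd_refl 2)
  omega

theorem real_prod (n k : ℕ) (hn : 1 < n) (hr : ∏ p ∈ n.primeFactors, p = n)
    (hk : ∏ p ∈ n.primeFactors, (p + 1) = k * n + 1) :
    (k : ℝ) < ∏ p ∈ n.primeFactors, (1 + 1 / (p : ℝ)) := by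
  have h1 : ∏ p ∈ n.primeFactors, (1 + 1 / (p : ℝ))
      = (∏ p ∈ n.primeFactors, ((p : ℝ) + 1)) / ∏ p ∈ n.primeFactors, (p : ℝ) := by
    rw [← Finset.prod_div_distrib]
    apply Finset.prod_congr rfl
    intro p hp
    have : (0 : ℝ) < p := by exact_mod_cast (Nat.prime_of_mem_primeFactors hp).pos
    field_simp
  have h2 : (∏ p ∈ n.primeFactors, (p : ℝ)) = n := by
    have h := congrArg (fun x : ℕ => (x : ℝ)) hr
    simp only [Nat.cast_prod] at h
    exact h
  have h3 : (∏ p ∈ n.primeFactors, ((p : ℝ) + 1)) = k * n + 1 := by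
    have h := congrArg (fun x : ℕ => (x : ℝ)) hk
    simp only [Nat.cast_prod, Nat.cast_add, Nat.cast_mul, Nat.cast_one] at h
    exact h
  rw [h1, h2, h3, lt_div_iff₀ (by positivity)]
  linarith

/-- a product of distinct positive integers is at least the factorial of their number -/
theorem factorial_card_le (m : ℕ) : ∀ S : Finset ℕ, (∀ q ∈ S, 0 < q) → S.card = m →
    m.factorial ≤ ∏ q ∈ S, q := by
  induction m with
  | zero => intro S hS h0; rw [Finset.card_eq_zero] at h0; subst h0; simp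
  | succ m ih =>
    intro S hS hm
    have hne : S.Nonempty := by rw [← Finset.card_pos]; omega
    set M := S.max' hne with hM
    have hMS : M ∈ S := Finset.max'_mem S hne
    have h1 : S ⊆ Finset.Icc 1 M := by
      intro x hx
      rw [Finset.mem_Icc]
      exact ⟨hS x hx, Finset.le_max' S x hx⟩
    have h2 := Finset.card_le_card h1
    rw [Nat.card_Icc, hm] at h2
    have h3 := ih (S.erase M) (fun q hq => hS q (Finset.mem_of_mem_erase hq))
      (by rw [Finset.card_erase_of_mem hMS]; omega)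
    rw [← Finset.mul_prod_erase S (fun x => x) hMS, Nat.factorial_succ]
    exact Nat.mul_le_mul (by omega) h3

theorem factorial_ge (m : ℕ) (hm : 1000000 ≤ m) : 10 ^ (5 * m) ≤ m.factorial := by
  have h1 := Real.pow_div_factorial_le_exp (m : ℝ) (by positivity) m
  have hf : (0 : ℝ) < m.factorial := by exact_mod_cast m.factorial_pos
  rw [div_le_iff₀ hf] at h1
  have h2 : Real.exp (m : ℝ) ≤ 10 ^ m := by
    have : Real.exp (m : ℝ) = Real.exp 1 ^ m := by rw [← Real.exp_nat_mul, mul_one]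
    rw [this]
    apply pow_le_pow_left₀ (Real.exp_pos 1).le
    linarith [Real.exp_one_lt_d9]
  have h3 : (10 : ℝ) ^ (6 * m) ≤ (m : ℝ) ^ m := by
    rw [pow_mul]
    apply pow_le_pow_left₀ (by positivity)
    have : ((1000000 : ℕ) : ℝ) ≤ m := by exact_mod_cast hm
    norm_num at this ⊢
    exact this
  have h4 : (10 : ℝ) ^ (6 * m) ≤ 10 ^ m * m.factorial :=
    le_trans h3 (le_trans h1 (mul_le_mul_of_nonneg_right h2 hf.le))
  have h5 : (10 : ℝ) ^ (6 * m) = 10 ^ m * 10 ^ (5 * m) := by rw [← pow_add]; congr 1; ring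
  rw [h5] at h4
  have h6 : (10 : ℝ) ^ (5 * m) ≤ m.factorial := le_of_mul_le_mul_left h4 (by positivity)
  exact_mod_cast h6

end Pool.Agent.Helper17.Psi
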