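import Pool.Agent.Helper17.Psi.Leaves
import Pool.Agent.Helper17.Psi.NT

/-!
# Composite solutions of `ψ(n) ≡ 1 (mod n)` have more than a million prime factors
-/

namespace Pool.Agent.Helper17.Psi

open Finset

theorem modeA (T : Finset ℕ) (hp : ∀ q ∈ T, q.Prime) (h6 : ∀ q ∈ T, q % 6 = 1)
    (hc : T.card ≤ 1000000) (hx : ∀ m ∈ T, ∀ q ∈ T, ¬ m ∣ q + 1) :
    ∏ q ∈ T, (1 + 1 / (q : ℝ)) ≤ ((9 : ℕ) : ℝ) / ((4 : ℕ) : ℝ) := by
  by_cases h7 : 7 ∈ T
  · by_cases h19 : 19 ∈ T
    · exact leafA0 T hp h6 hc hx h7 h19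
    · by_cases h31 : 31 ∈ T
      · exact leafA1 T hp h6 hc hx h7 h31 h19
      · exact leafA2 T hp h6 hc hx h7 h19 h31
  · by_cases h13 : 13 ∈ T
    · by_cases h19 : 19 ∈ T
      · exact leafA3 T hp h6 hc hx h13 h19 h7
      · by_cases h31 : 31 ∈ T
        · exact leafA4 T hp h6 hc hx h13 h31 h7 h19
        · exact leafA5 T hp h6 hc hx h13 h7 h19 h31
    · by_cases h19 : 19 ∈ T
      · exact leafA6 T hp h6 hc hx h19 h7 h13
      · exact leafA7 T hp h6 hc h7 h13 h19

theorem modeB5 (T : Finset ℕ) (hp : ∀ q ∈ T, q.Prime) (h6 : ∀ q ∈ T, q % 6 = 1 ∨ q % 6 = 5)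
    (hc : T.card ≤ 1000000) (hx : ∀ m ∈ T, ∀ q ∈ T, ¬ m ∣ q + 1) (x5 : ∀ q ∈ T, ¬ 5 ∣ q + 1) :
    ∏ q ∈ T, (1 + 1 / (q : ℝ)) ≤ ((5 : ℕ) : ℝ) / ((1 : ℕ) : ℝ) := by
  by_cases h5 : 5 ∈ T
  · by_cases h7 : 7 ∈ T
    · exact leafB0 T hp h6 hc hx h7 x5
    · by_cases h11 : 11 ∈ T
      · exact leafB1 T hp h6 hc hx h11 h7 x5
      · exact leafB2 T hp h6 hc h7 h11 x5
  · exact leafB3 T hp h6 hc h5 x5

/-- the main bound on the number of prime factors -/
theorem card_gt (n : ℕ) (hn : 1 < n) (hc : ¬ n.Prime) (h : Sol n) :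
    1000000 < n.primeFactors.card := by
  by_contra hle
  have hcard : n.primeFactors.card ≤ 1000000 := by omega
  have hr := rad_eq n hn h
  obtain ⟨k, hk⟩ := exists_k n hn h
  have h3 := k_ge_three n k hn hc hr hk
  have h2n := odd_mem n k hn hc hr hk
  have hkodd := k_odd n k hn hc hr hk
  have hprod := real_prod n k hn hr hk
  have hp : ∀ q ∈ n.primeFactors, q.Prime := fun q hq => Nat.prime_of_mem_primeFactors hq
  have hx : ∀ m ∈ n.primeFactors, ∀ q ∈ n.primeFactors, ¬ m ∣ q + 1 := by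
    intro m hm q hq
    exact excl n k hk m (hp m hm).two_le
      (Dvd.dvd.mul_left (Nat.dvd_of_mem_primeFactors hm) k) q hq
  have hodd : ∀ q ∈ n.primeFactors, q % 2 = 1 := by
    intro q hq
    rcases (hp q hq).eq_two_or_odd with h | h
    · exact absurd (h ▸ hq) h2n
    · exact h
  have h3q : ∀ q ∈ n.primeFactors, q ≠ 3 → q % 3 ≠ 0 := by
    intro q hq hne h0
    have h1 : 3 ∣ q := Nat.dvd_of_mod_eq_zero h0
    rcases (Nat.dvd_prime (hp q hq)).mp h1 with h | h
    · omega
    · exact hne h.symm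
  have hk3 : (3 : ℝ) ≤ k := by exact_mod_cast h3
  by_cases hd3 : 3 ∣ k * n
  · -- all prime factors other than 3 are 1 mod 6
    have hx3 := excl n k hk 3 (by norm_num) hd3
    set T := n.primeFactors.filter (fun q => q ≠ 3) with hT
    have hTn : ∀ q ∈ T, q ∈ n.primeFactors := fun q hq => (Finset.mem_filter.mp hq).1
    have hT3 : ∀ q ∈ T, q ≠ 3 := fun q hq => (Finset.mem_filter.mp hq).2
    have h6 : ∀ q ∈ T, q % 6 = 1 := by
      intro q hq
      have g1 := hodd q (hTn q hq)
      have g2 := h3q q (hTn q hq) (hT3 q hq)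
      have g3 := hx3 q (hTn q hq)
      have g4 : q % 3 ≠ 2 := by
        intro h; exact g3 (Nat.dvd_of_mod_eq_zero (by omega))
      have g5 : q % 3 = 1 := by omega
      omega
    have hb := modeA T (fun q hq => hp q (hTn q hq)) h6
      (le_trans (Finset.card_filter_le _ _) hcard)
      (fun m hm q hq => hx m (hTn m hm) q (hTn q hq))
    have hsplit := Finset.prod_filter_mul_prod_filter_not n.primeFactors (fun q => q ≠ 3)
      (fun q : ℕ => 1 + 1 / (q : ℝ))
    have hrest : ∏ q ∈ n.primeFactors.filter (fun q => ¬ q ≠ 3), (1 + 1 / (q : ℝ)) ≤ 4 / 3 := by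
      by_cases hm : 3 ∈ n.primeFactors
      · have : n.primeFactors.filter (fun q => ¬ q ≠ 3) = {3} := by
          ext x
          simp only [Finset.mem_filter, Finset.mem_singleton, not_not]
          constructor
          · exact fun h => h.2
          · intro h; exact ⟨h ▸ hm, h⟩
        rw [this, Finset.prod_singleton]; norm_num
      · have : n.primeFactors.filter (fun q => ¬ q ≠ 3) = ∅ := by
          apply Finset.filter_eq_empty_iff.mpr
          intro x hx'
          rw [not_not]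
          rintro rfl
          exact hm hx'
        rw [this, Finset.prod_empty]; norm_num
    have hpos : (0 : ℝ) ≤ ∏ q ∈ T, (1 + 1 / (q : ℝ)) :=
      Finset.prod_nonneg (fun q _ => by positivity)
    have h9 : ∏ q ∈ n.primeFactors, (1 + 1 / (q : ℝ)) ≤ 3 := by
      rw [← hsplit]
      calc (∏ q ∈ T, (1 + 1 / (q : ℝ)))
            * ∏ q ∈ n.primeFactors.filter (fun q => ¬ q ≠ 3), (1 + 1 / (q : ℝ))
          ≤ (((9 : ℕ) : ℝ) / ((4 : ℕ) : ℝ)) * (4 / 3) :=
            mul_le_mul hb hrest (Finset.prod_nonneg (fun q _ => by positivity)) (by norm_num)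
        _ = 3 := by norm_num
    linarith
  · have hk3' : ¬ 3 ∣ k := fun hd => hd3 (Dvd.dvd.mul_right hd n)
    have hn3 : ¬ 3 ∣ n := fun hd => hd3 (Dvd.dvd.mul_left hd k)
    have h3m : 3 ∉ n.primeFactors := fun hm => hn3 (Nat.dvd_of_mem_primeFactors hm)
    have h6 : ∀ q ∈ n.primeFactors, q % 6 = 1 ∨ q % 6 = 5 := by
      intro q hq
      have g1 := hodd q hq
      have g2 := h3q q hq (fun e => h3m (e ▸ hq))
      omega
    have hcases : k = 5 ∨ k = 7 ∨ 11 ≤ k := by omega
    rcases hcases with rfl | rfl | h11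
    · have hx5 := excl n 5 hk 5 (by norm_num) (Dvd.dvd.mul_right (dvd_refl 5) n)
      have hb := modeB5 n.primeFactors hp h6 hcard hx hx5
      norm_num at hb hprod
      linarith
    · have hx7 := excl n 7 hk 7 (by norm_num) (Dvd.dvd.mul_right (dvd_refl 7) n)
      have hb := leafB4 n.primeFactors hp h6 hcard hx7
      norm_num at hb hprod
      linarith
    · have hb := leafB5 n.primeFactors hp h6 hcard
      have h11' : (11 : ℝ) ≤ k := by exact_mod_cast h11
      norm_num at hb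
      norm_num at hprod
      linarith

/-- the resulting size bound -/
theorem size_gt (n : ℕ) (hn : 1 < n) (hc : ¬ n.Prime) (h : Sol n) :
    10 ^ 5000000 < n := by
  have h1 := card_gt n hn hc h
  have hr := rad_eq n hn h
  have h2 := factorial_card_le n.primeFactors.card n.primeFactors
    (fun q hq => (Nat.prime_of_mem_primeFactors hq).pos) rfl
  rw [hr] at h2
  have h3 := factorial_ge n.primeFactors.card (by omega)
  have h5 : 5000000 < 5 * n.primeFactors.card := by omega
  have h4 := Nat.pow_lt_pow_right (a := 10) (by norm_num) h5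
  exact lt_of_lt_of_le h4 (le_trans h3 h2)

end Pool.Agent.Helper17.Psi
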