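import Mathlib

/-!
# Parallel bit counting, evaluated by the kernel on big natural numbers
-/

namespace Pool.Agent.Helper17.Psi

/-- sum of the lowest `L` base `2 ^ w` digits -/
def dsum (w : ℕ) : ℕ → ℕ → ℕ
  | 0, _ => 0
  | L + 1, x => x % 2 ^ w + dsum w L (x / 2 ^ w)

/-- the mask selecting every second digit, recursive form -/
def maskR (w : ℕ) : ℕ → ℕ
  | 0 => 0
  | L + 1 => 2 ^ (2 * w) * maskR w L + (2 ^ w - 1)

/-- the same mask in closed form -/
def maskE (w L : ℕ) : ℕ :=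
  Nat.div (Nat.sub (Nat.pow 2 (Nat.mul (Nat.mul 2 w) L)) 1) (Nat.add (Nat.pow 2 w) 1)

theorem maskR_mul (w L : ℕ) : (2 ^ w + 1) * maskR w L = 2 ^ (2 * w * L) - 1 := by
  induction L with
  | zero => simp [maskR]
  | succ L ih =>
    have h1 : 1 ≤ 2 ^ (2 * w * L) := Nat.one_le_two_pow
    have h2 : 1 ≤ 2 ^ w := Nat.one_le_two_pow
    obtain ⟨a, ha⟩ := Nat.exists_eq_add_of_le h2
    have h3 : (2 ^ w + 1) * maskR w (L + 1)
        = 2 ^ (2 * w) * ((2 ^ w + 1) * maskR w L) + (2 ^ w + 1) * (2 ^ w - 1) := by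
      simp only [maskR]; ring
    rw [h3, ih]
    have h4 : 2 ^ (2 * w * (L + 1)) = 2 ^ (2 * w) * 2 ^ (2 * w * L) := by
      rw [← pow_add]; congr 1; ring
    have h5 : 2 ^ (2 * w) = 2 ^ w * 2 ^ w := by rw [← pow_add]; congr 1; ring
    rw [h4, Nat.mul_sub, mul_one]
    have h6 : (2 ^ w + 1) * (2 ^ w - 1) = 2 ^ (2 * w) - 1 := by
      rw [h5, ha]
      have : 1 + a - 1 = a := by omega
      rw [this]
      have : (1 + a) * (1 + a) = (1 + a + 1) * a + 1 := by ring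
      omega
    rw [h6]
    have h7 : 1 ≤ 2 ^ (2 * w) := Nat.one_le_two_pow
    have h8 : 2 ^ (2 * w) ≤ 2 ^ (2 * w) * 2 ^ (2 * w * L) := Nat.le_mul_of_pos_right _ h1
    omega

theorem maskE_eq (w L : ℕ) : maskE w L = maskR w L := by
  have h := maskR_mul w L
  have : maskE w L = (2 ^ (2 * w * L) - 1) / (2 ^ w + 1) := rfl
  rw [this, ← h]
  exact Nat.mul_div_cancel_left _ (Nat.succ_pos _)

/-- one step of the parallel digit sum -/
def step (w L x : ℕ) : ℕ :=
  Nat.add (Nat.land x (maskE w L)) (Nat.land (Nat.shiftRight x w) (maskE w L))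

theorem step_eq (w L x : ℕ) :
    step w L x = (x &&& maskR w L) + ((x >>> w) &&& maskR w L) := by
  rw [← maskE_eq]; rfl

theorem land_mask (w L x : ℕ) : x &&& maskR w (L + 1)
    = 2 ^ (2 * w) * ((x / 2 ^ (2 * w)) &&& maskR w L) + x % 2 ^ w := by
  have hlt : x % 2 ^ w < 2 ^ (2 * w) :=
    lt_of_lt_of_le (Nat.mod_lt _ (by positivity)) (Nat.pow_le_pow_right (by norm_num) (by omega))
  have hlt2 : 2 ^ w - 1 < 2 ^ (2 * w) := by
    have h1 : 1 ≤ 2 ^ w := Nat.one_le_two_pow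
    have h2 : 2 ^ w ≤ 2 ^ (2 * w) := Nat.pow_le_pow_right (by norm_num) (by omega)
    omega
  apply Nat.eq_of_testBit_eq
  intro j
  rw [Nat.testBit_and, maskR, Nat.testBit_two_pow_mul_add _ hlt2, Nat.testBit_two_pow_mul_add _ hlt]
  by_cases hj : j < 2 * w
  · simp only [hj, if_true, Nat.testBit_two_pow_sub_one, Nat.testBit_mod_two_pow]
    rw [Bool.and_comm]
  · simp only [hj, if_false, Nat.testBit_and, Nat.testBit_div_two_pow]
    have : j - 2 * w + 2 * w = j := by omega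
    rw [this]

theorem step_succ (w L x : ℕ) : step w (L + 1) x
    = 2 ^ (2 * w) * step w L (x / 2 ^ (2 * w)) + (x % 2 ^ w + x / 2 ^ w % 2 ^ w) := by
  rw [step_eq, step_eq, land_mask, land_mask]
  simp only [Nat.shiftRight_eq_div_pow]
  have : x / 2 ^ w / 2 ^ (2 * w) = x / 2 ^ (2 * w) / 2 ^ w := by
    rw [Nat.div_div_eq_div_mul, Nat.div_div_eq_div_mul, mul_comm]
  rw [this]; ring

theorem small_lt (w x : ℕ) (hw : 1 ≤ w) : x % 2 ^ w + x / 2 ^ w % 2 ^ w < 2 ^ (2 * w) := by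
  have h1 : x % 2 ^ w < 2 ^ w := Nat.mod_lt _ (by positivity)
  have h2 : x / 2 ^ w % 2 ^ w < 2 ^ w := Nat.mod_lt _ (by positivity)
  have h3 : 2 ^ (w + 1) ≤ 2 ^ (2 * w) := Nat.pow_le_pow_right (by norm_num) (by omega)
  have h4 : 2 ^ (w + 1) = 2 ^ w * 2 := pow_succ _ _
  omega

theorem dsum_step (w : ℕ) (hw : 1 ≤ w) (L : ℕ) : ∀ x : ℕ,
    dsum (2 * w) L (step w L x) = dsum w (2 * L) x := by
  induction L with
  | zero => intro x; simp [dsum]
  | succ L ih =>
    intro x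
    have hs := small_lt w x hw
    have e1 : 2 * (L + 1) = (2 * L + 1) + 1 := by ring
    rw [e1]
    simp only [dsum]
    rw [step_succ]
    have h1 : (2 ^ (2 * w) * step w L (x / 2 ^ (2 * w)) + (x % 2 ^ w + x / 2 ^ w % 2 ^ w))
        % 2 ^ (2 * w) = x % 2 ^ w + x / 2 ^ w % 2 ^ w := by
      rw [Nat.mul_add_mod]; exact Nat.mod_eq_of_lt hs
    have h2 : (2 ^ (2 * w) * step w L (x / 2 ^ (2 * w)) + (x % 2 ^ w + x / 2 ^ w % 2 ^ w))
        / 2 ^ (2 * w) = step w L (x / 2 ^ (2 * w)) := by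
      rw [Nat.mul_add_div (by positivity), Nat.div_eq_of_lt hs, add_zero]
    rw [h1, h2, ih]
    have h3 : x / 2 ^ w / 2 ^ w = x / 2 ^ (2 * w) := by
      rw [Nat.div_div_eq_div_mul, ← pow_add]; congr 2; ring
    rw [h3]; ring

theorem step_lt (w : ℕ) (hw : 1 ≤ w) (L : ℕ) : ∀ x : ℕ, step w L x < 2 ^ (2 * w * L) := by
  induction L with
  | zero => intro x; rw [step_eq]; simp [maskR]
  | succ L ih =>
    intro x
    rw [step_succ]
    have hs := small_lt w x hw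
    have h1 := ih (x / 2 ^ (2 * w))
    have h2 : 2 ^ (2 * w * (L + 1)) = 2 ^ (2 * w) * 2 ^ (2 * w * L) := by
      rw [← pow_add]; congr 1; ring
    rw [h2]
    calc 2 ^ (2 * w) * step w L (x / 2 ^ (2 * w)) + (x % 2 ^ w + x / 2 ^ w % 2 ^ w)
        < 2 ^ (2 * w) * step w L (x / 2 ^ (2 * w)) + 2 ^ (2 * w) := by omega
      _ = 2 ^ (2 * w) * (step w L (x / 2 ^ (2 * w)) + 1) := by ring
      _ ≤ 2 ^ (2 * w) * 2 ^ (2 * w * L) := Nat.mul_le_mul_left _ h1

theorem dsum_modEq (w : ℕ) (L : ℕ) : ∀ x : ℕ, x < 2 ^ (w * L) →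
    dsum w L x ≡ x [MOD 2 ^ w - 1] := by
  induction L with
  | zero => intro x hx; simp at hx; subst hx; simp [dsum]; rfl
  | succ L ih =>
    intro x hx
    have h1 : x / 2 ^ w < 2 ^ (w * L) := by
      rw [Nat.div_lt_iff_lt_mul (by positivity), ← pow_add]
      have : w * L + w = w * (L + 1) := by ring
      rw [this]; exact hx
    have h2 := ih _ h1
    simp only [dsum]
    have h3 : 1 ≤ 2 ^ w := Nat.one_le_two_pow
    have h4 : x / 2 ^ w ≡ 2 ^ w * (x / 2 ^ w) [MOD 2 ^ w - 1] := by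
      have h5 : 2 ^ w ≡ 1 [MOD 2 ^ w - 1] := by
        have h6 : 2 ^ w = 1 + (2 ^ w - 1) * 1 := by omega
        calc 2 ^ w = 1 + (2 ^ w - 1) * 1 := h6
          _ ≡ 1 [MOD 2 ^ w - 1] := by simp [Nat.ModEq]
      calc x / 2 ^ w = 1 * (x / 2 ^ w) := (one_mul _).symm
        _ ≡ 2 ^ w * (x / 2 ^ w) [MOD 2 ^ w - 1] := (h5.symm).mul_right _
    calc x % 2 ^ w + dsum w L (x / 2 ^ w) ≡ x % 2 ^ w + x / 2 ^ w [MOD 2 ^ w - 1] :=
          h2.add_left _
      _ ≡ x % 2 ^ w + 2 ^ w * (x / 2 ^ w) [MOD 2 ^ w - 1] := h4.add_left _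
      _ = x := Nat.mod_add_div x (2 ^ w)

theorem mod_le_dsum (w L x : ℕ) (hx : x < 2 ^ (w * L)) : x % (2 ^ w - 1) ≤ dsum w L x := by
  have h := dsum_modEq w L x hx
  unfold Nat.ModEq at h
  rw [← h]; exact Nat.mod_le _ _

/-- the number of ones among the lowest `32 n` bits -/
def pc (n x : ℕ) : ℕ :=
  Nat.mod (step 16 n (step 8 (Nat.mul 2 n) (step 4 (Nat.mul 4 n) (step 2 (Nat.mul 8 n)
    (step 1 (Nat.mul 16 n) x))))) 4294967295

theorem pc_le (n x : ℕ) : pc n x ≤ dsum 1 (32 * n) x := by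
  have h1 : dsum (2 * 1) (16 * n) (step 1 (16 * n) x) = dsum 1 (2 * (16 * n)) x :=
    dsum_step 1 (by norm_num) _ _
  have h2 : dsum (2 * 2) (8 * n) (step 2 (8 * n) (step 1 (16 * n) x))
      = dsum 2 (2 * (8 * n)) (step 1 (16 * n) x) := dsum_step 2 (by norm_num) _ _
  have h3 := dsum_step 4 (by norm_num) (4 * n) (step 2 (8 * n) (step 1 (16 * n) x))
  have h4 := dsum_step 8 (by norm_num) (2 * n) (step 4 (4 * n) (step 2 (8 * n)
    (step 1 (16 * n) x)))
  have h5 := dsum_step 16 (by norm_num) n (step 8 (2 * n) (step 4 (4 * n) (step 2 (8 * n)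
    (step 1 (16 * n) x))))
  have h6 := step_lt 16 (by norm_num) n (step 8 (2 * n) (step 4 (4 * n) (step 2 (8 * n)
    (step 1 (16 * n) x))))
  have h7 := mod_le_dsum (2 * 16) n _ h6
  have e : pc n x = (step 16 n (step 8 (2 * n) (step 4 (4 * n) (step 2 (8 * n)
    (step 1 (16 * n) x))))) % (2 ^ (2 * 16) - 1) := rfl
  rw [e]
  refine le_trans h7 (le_of_eq ?_)
  rw [h5]
  have g4 : 2 * n = 2 * n := rfl
  have g3 : 2 * (2 * n) = 4 * n := by ring
  have g2 : 2 * (4 * n) = 8 * n := by ring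
  have g1 : 2 * (8 * n) = 16 * n := by ring
  have g0 : 2 * (16 * n) = 32 * n := by ring
  rw [g3] at h4
  rw [g2] at h3
  rw [g1] at h2
  rw [g0] at h1
  calc dsum 16 (2 * n) (step 8 (2 * n) (step 4 (4 * n) (step 2 (8 * n) (step 1 (16 * n) x))))
      = dsum 8 (4 * n) (step 4 (4 * n) (step 2 (8 * n) (step 1 (16 * n) x))) := h4
    _ = dsum 4 (8 * n) (step 2 (8 * n) (step 1 (16 * n) x)) := h3
    _ = dsum 2 (16 * n) (step 1 (16 * n) x) := h2
    _ = dsum 1 (32 * n) x := h1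

/-- the number of ones among the lowest `L` bits -/
def ones (L x : ℕ) : ℕ := ((Finset.range L).filter (fun j => x.testBit j = true)).card

theorem dsum_one (L : ℕ) : ∀ x : ℕ, dsum 1 L x = ones L x := by
  induction L with
  | zero => intro x; simp [dsum, ones]
  | succ L ih =>
    intro x
    simp only [dsum]
    rw [ih]
    unfold ones
    rw [Finset.card_filter, Finset.card_filter, Finset.sum_range_succ']
    have h1 : ∀ j, Nat.testBit x (j + 1) = Nat.testBit (x / 2 ^ 1) j := by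
      intro j; rw [pow_one, Nat.testBit_add_one]
    simp only [h1]
    rw [add_comm]
    congr 1
    rw [pow_one, Nat.testBit_zero]
    rcases Nat.mod_two_eq_zero_or_one x with h | h <;> simp [h]

theorem pc_le_ones (n x : ℕ) : pc n x ≤ ones (32 * n) x := by
  rw [← dsum_one]; exact pc_le n x

theorem pc_block_le (n X off len : ℕ) :
    pc n (Nat.mod (Nat.shiftRight X off) (Nat.pow 2 len)) ≤ ones len (X >>> off) := by
  refine le_trans (pc_le_ones _ _) ?_
  unfold ones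
  apply Finset.card_le_card
  intro j hj
  rw [Finset.mem_filter] at hj ⊢
  have h : (Nat.mod (Nat.shiftRight X off) (Nat.pow 2 len)) = (X >>> off) % 2 ^ len := rfl
  rw [h, Nat.testBit_mod_two_pow] at hj
  simp only [Bool.and_eq_true, decide_eq_true_eq] at hj
  exact ⟨Finset.mem_range.mpr hj.2.1, hj.2.2⟩

end Pool.Agent.Helper17.Psi
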