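import Pool.Agent.Helper17.Psi.Pc

/-!
# A sieve on bit vectors, evaluated by the kernel

Bit `j` of the vector of a chunk starting at `a` belongs to the number `6 (a + j) + r`.
-/

namespace Pool.Agent.Helper17.Psi

/-! ### masks of arithmetic progressions -/

/-- bits `0, p, 2 p, …` (`t` of them), recursive form -/
def geoR (p : ℕ) : ℕ → ℕ
  | 0 => 0
  | t + 1 => 2 ^ p * geoR p t + 1

/-- the same in closed form -/
def geo (p t : ℕ) : ℕ :=
  Nat.div (Nat.sub (Nat.pow 2 (Nat.mul p t)) 1) (Nat.sub (Nat.pow 2 p) 1)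

theorem geoR_mul (p t : ℕ) : (2 ^ p - 1) * geoR p t = 2 ^ (p * t) - 1 := by
  induction t with
  | zero => simp [geoR]
  | succ t ih =>
    have h1 : 1 ≤ 2 ^ p := Nat.one_le_two_pow
    have h2 : 1 ≤ 2 ^ (p * t) := Nat.one_le_two_pow
    have h3 : (2 ^ p - 1) * geoR p (t + 1) = 2 ^ p * ((2 ^ p - 1) * geoR p t) + (2 ^ p - 1) := by
      simp only [geoR]; ring
    rw [h3, ih, Nat.mul_sub, mul_one]
    have h4 : 2 ^ (p * (t + 1)) = 2 ^ p * 2 ^ (p * t) := by
      rw [← pow_add]; congr 1; ring
    rw [h4]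
    have h5 : 2 ^ p ≤ 2 ^ p * 2 ^ (p * t) := Nat.le_mul_of_pos_right _ h2
    omega

theorem geo_eq (p t : ℕ) (hp : 1 ≤ p) : geo p t = geoR p t := by
  have h := geoR_mul p t
  have e : geo p t = (2 ^ (p * t) - 1) / (2 ^ p - 1) := rfl
  rw [e, ← h]
  apply Nat.mul_div_cancel_left
  have : 2 ^ 1 ≤ 2 ^ p := Nat.pow_le_pow_right (by norm_num) hp
  omega

theorem geoR_testBit (p : ℕ) (hp : 1 ≤ p) (t : ℕ) : ∀ j : ℕ, (geoR p t).testBit j = true →
    p ∣ j := by
  induction t with
  | zero => intro j h; simp [geoR] at h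
  | succ t ih =>
    intro j h
    have h1 : 1 < 2 ^ p := Nat.one_lt_two_pow (by omega)
    rw [geoR, Nat.testBit_two_pow_mul_add _ h1] at h
    by_cases hj : j < p
    · rw [if_pos hj] at h
      have : j = 0 := by
        by_contra hne
        rw [Nat.testBit_one_eq_true_iff_self_eq_zero] at h
        exact hne h
      rw [this]; exact dvd_zero _
    · rw [if_neg hj] at h
      have := ih _ h
      have h2 : j = (j - p) + p := by omega
      rw [h2]; exact dvd_add this (dvd_refl p)

/-- mask of the `j` with `p ∣ 6 (a + j) + r + e` within a chunk of length `K`; `i` is the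
residue of `a + j` -/
def mask (p a K i : ℕ) : ℕ :=
  Nat.shiftLeft (geo p (Nat.div (Nat.sub (Nat.add K p) (Nat.add 1 (Nat.mod (Nat.sub (Nat.add i p)
    (Nat.mod a p)) p))) p)) (Nat.mod (Nat.sub (Nat.add i p) (Nat.mod a p)) p)

theorem mask_testBit (p a K i j : ℕ) (hp : 1 ≤ p) (h : (mask p a K i).testBit j = true) :
    (a + j) ≡ i [MOD p] := by
  set st := Nat.mod (Nat.sub (Nat.add i p) (Nat.mod a p)) p with hst
  have e : mask p a K i = geo p (Nat.div (Nat.sub (Nat.add K p) (Nat.add 1 st)) p) <<< st := rfl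
  rw [e, Nat.testBit_shiftLeft] at h
  simp only [ge_iff_le, Bool.and_eq_true, decide_eq_true_eq] at h
  obtain ⟨hj, h⟩ := h
  rw [geo_eq p _ hp] at h
  obtain ⟨m, hm⟩ := geoR_testBit p hp _ _ h
  have hst2 : st = (i + p - a % p) % p := rfl
  have h1 : j = st + p * m := by omega
  have ha : a % p < p := Nat.mod_lt _ hp
  have h2 : a + j ≡ a % p + (i + p - a % p) [MOD p] := by
    apply Nat.ModEq.add (Nat.mod_modEq a p).symm
    rw [h1, hst2]
    calc (i + p - a % p) % p + p * m ≡ (i + p - a % p) % p [MOD p] := by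
          simp [Nat.ModEq]
      _ ≡ (i + p - a % p) [MOD p] := Nat.mod_modEq _ _
  have h3 : a % p + (i + p - a % p) = i + p := by omega
  rw [h3] at h2
  calc a + j ≡ i + p [MOD p] := h2
    _ ≡ i [MOD p] := by simp [Nat.ModEq]

/-- the residue `i` with `p ∣ 6 i + r` -/
def res (r p : ℕ) : ℕ :=
  cond (Nat.beq (Nat.mod p 6) r) (Nat.div p 6) (Nat.div (Nat.mul 5 p) 6)

/-- guarded mask of the sieving number `p` -/
def sMask (r a K p : ℕ) : ℕ :=
  cond (Nat.ble 2 p)
    (cond (Nat.ble (Nat.add p 1) (Nat.mul 6 a))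
      (cond (Nat.beq (Nat.mod (Nat.add (Nat.mul 6 (res r p)) r) p) 0) (mask p a K (res r p)) 0)
      0)
    0

theorem sMask_testBit (r a K p j : ℕ) (h : (sMask r a K p).testBit j = true) :
    2 ≤ p ∧ p < 6 * a ∧ p ∣ 6 * (a + j) + r := by
  unfold sMask at h
  cases h1 : Nat.ble 2 p with
  | false => rw [h1] at h; simp at h
  | true =>
    rw [h1] at h
    cases h2 : Nat.ble (Nat.add p 1) (Nat.mul 6 a) with
    | false => rw [h2] at h; simp at h
    | true =>
      rw [h2] at h
      cases h3 : Nat.beq (Nat.mod (Nat.add (Nat.mul 6 (res r p)) r) p) 0 with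
      | false => rw [h3] at h; simp at h
      | true =>
        rw [h3] at h
        simp only [cond_true] at h
        have g1 : 2 ≤ p := Nat.le_of_ble_eq_true h1
        have g2 : p + 1 ≤ 6 * a := Nat.le_of_ble_eq_true h2
        have g3 : (6 * res r p + r) % p = 0 := Nat.eq_of_beq_eq_true h3
        refine ⟨g1, g2, ?_⟩
        have h4 := mask_testBit p a K (res r p) j (by omega) h
        have h5 : 6 * (a + j) + r ≡ 6 * res r p + r [MOD p] := (h4.mul_left 6).add_right r
        rw [Nat.dvd_iff_mod_eq_zero]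
        unfold Nat.ModEq at h5
        rw [h5]; exact g3

/-- guarded mask of the exclusion modulus `m`, with its residue `i` -/
def eMask (r a K m i : ℕ) : ℕ :=
  cond (Nat.ble 2 m)
    (cond (Nat.beq (Nat.mod (Nat.add (Nat.mul 6 i) (Nat.add r 1)) m) 0) (mask m a K i) 0)
    0

theorem eMask_testBit (r a K m i j : ℕ) (h : (eMask r a K m i).testBit j = true) :
    m ∣ 6 * (a + j) + r + 1 := by
  unfold eMask at h
  cases h1 : Nat.ble 2 m with
  | false => rw [h1] at h; simp at h
  | true =>
    rw [h1] at h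
    cases h3 : Nat.beq (Nat.mod (Nat.add (Nat.mul 6 i) (Nat.add r 1)) m) 0 with
    | false => rw [h3] at h; simp at h
    | true =>
      rw [h3] at h
      simp only [cond_true] at h
      have g1 : 2 ≤ m := Nat.le_of_ble_eq_true h1
      have g3 : (6 * i + (r + 1)) % m = 0 := Nat.eq_of_beq_eq_true h3
      have h4 := mask_testBit m a K i j (by omega) h
      have h5 : 6 * (a + j) + (r + 1) ≡ 6 * i + (r + 1) [MOD m] :=
        (h4.mul_left 6).add_right (r + 1)
      rw [Nat.dvd_iff_mod_eq_zero]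
      unfold Nat.ModEq at h5
      rw [add_assoc, h5]; exact g3

/-- union of the masks of a list -/
def orL (f : ℕ → ℕ) : List ℕ → ℕ
  | [] => 0
  | p :: l => Nat.lor (f p) (orL f l)

/-- union over a list of lists -/
def orLL (f : ℕ → ℕ) : List (List ℕ) → ℕ
  | [] => 0
  | l :: ll => Nat.lor (orL f l) (orLL f ll)

theorem orL_testBit (f : ℕ → ℕ) (l : List ℕ) (j : ℕ) (h : (orL f l).testBit j = true) :
    ∃ p, (f p).testBit j = true := by
  induction l with
  | nil => simp [orL] at h
  | cons p l ih =>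
    have e : orL f (p :: l) = f p ||| orL f l := rfl
    rw [e, Nat.testBit_or, Bool.or_eq_true] at h
    rcases h with h | h
    · exact ⟨p, h⟩
    · exact ih h

theorem orLL_testBit (f : ℕ → ℕ) (l : List (List ℕ)) (j : ℕ)
    (h : (orLL f l).testBit j = true) : ∃ p, (f p).testBit j = true := by
  induction l with
  | nil => simp [orLL] at h
  | cons p l ih =>
    have e : orLL f (p :: l) = orL f p ||| orLL f l := rfl
    rw [e, Nat.testBit_or, Bool.or_eq_true] at h
    rcases h with h | h
    · exact orL_testBit f p j h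
    · exact ih h

/-- union of the exclusion masks -/
def orE (r a K : ℕ) : List (ℕ × ℕ) → ℕ
  | [] => 0
  | p :: l => Nat.lor (eMask r a K p.1 p.2) (orE r a K l)

theorem orE_testBit (r a K : ℕ) (l : List (ℕ × ℕ)) (j : ℕ)
    (h : (orE r a K l).testBit j = true) : ∃ p ∈ l, p.1 ∣ 6 * (a + j) + r + 1 := by
  induction l with
  | nil => simp [orE] at h
  | cons p l ih =>
    have e : orE r a K (p :: l) = eMask r a K p.1 p.2 ||| orE r a K l := rfl
    rw [e, Nat.testBit_or, Bool.or_eq_true] at h
    rcases h with h | h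
    · exact ⟨p, List.mem_cons_self, eMask_testBit _ _ _ _ _ _ h⟩
    · obtain ⟨q, hq, hd⟩ := ih h
      exact ⟨q, List.mem_cons_of_mem _ hq, hd⟩

/-! ### weighted block sums -/

/-- an upper bound of `10 ^ 12 / (6 i + r)` -/
def wt (i : ℕ) : ℕ := Nat.add (Nat.div 1000000000000 (Nat.mul 6 i)) 1

theorem wt_anti {s i : ℕ} (hs : 0 < s) (h : s ≤ i) : wt i ≤ wt s := by
  have e : ∀ k, wt k = 1000000000000 / (6 * k) + 1 := fun _ => rfl
  rw [e, e]
  have : 1000000000000 / (6 * i) ≤ 1000000000000 / (6 * s) :=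
    Nat.div_le_div_left (by omega) (by omega)
  omega

/-- bound of one block -/
def blk (X a W s L n : ℕ) : ℕ :=
  Nat.mul (Nat.sub L (pc n (Nat.mod (Nat.shiftRight X (Nat.sub s a)) (Nat.pow 2 L))))
    (Nat.sub (wt s) W)

/-- bound of `J` consecutive blocks of length `L` -/
def segJ (X a W s L n : ℕ) : ℕ → ℕ
  | 0 => 0
  | j + 1 => Nat.add (blk X a W (Nat.add s (Nat.mul L j)) L n) (segJ X a W s L n j)

/-- bound of a chunk -/
def segs (X a W : ℕ) : ℕ → List (ℕ × ℕ) → ℕ
  | _, [] => 0
  | s, g :: gs => Nat.add (segJ X a W s g.1 (Nat.div (Nat.add g.1 31) 32) g.2)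
      (segs X a W (Nat.add s (Nat.mul g.1 g.2)) gs)

/-- end of a chunk -/
def segEnd : ℕ → List (ℕ × ℕ) → ℕ
  | s, [] => s
  | s, g :: gs => segEnd (s + g.1 * g.2) gs

/-- the weighted sum to be bounded -/
def psum (F : Finset ℕ) (W s t : ℕ) : ℕ := ∑ i ∈ F, if s ≤ i ∧ i < t then wt i - W else 0

theorem psum_add (F : Finset ℕ) (W s m t : ℕ) : psum F W s t ≤ psum F W s m + psum F W m t := by
  unfold psum
  rw [← Finset.sum_add_distrib]
  apply Finset.sum_le_sum
  intro i _
  split_ifs <;> omega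

theorem psum_self (F : Finset ℕ) (W s : ℕ) : psum F W s s = 0 := by
  unfold psum
  apply Finset.sum_eq_zero
  intro i _
  rw [if_neg (by omega)]

theorem card_block (F : Finset ℕ) (X a s L : ℕ) (has : a ≤ s)
    (hF : ∀ i ∈ F, a ≤ i → X.testBit (i - a) = false) :
    (F.filter (fun i => s ≤ i ∧ i < s + L)).card + ones L (X >>> (s - a)) ≤ L := by
  have h1 : (F.filter (fun i => s ≤ i ∧ i < s + L)).card ≤
      ((Finset.range L).filter (fun j => ¬ ((X >>> (s - a)).testBit j = true))).card := by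
    apply Finset.card_le_card_of_injOn (fun i => i - s)
    · intro i hi
      rw [Finset.mem_coe, Finset.mem_filter] at hi
      obtain ⟨hi, h2, h3⟩ := hi
      rw [Finset.mem_coe, Finset.mem_filter, Finset.mem_range]
      refine ⟨by change i - s < L; omega, ?_⟩
      rw [Nat.testBit_shiftRight]
      have : s - a + (i - s) = i - a := by omega
      rw [this, hF i hi (by omega)]
      simp
    · intro i hi j hj hij
      rw [Finset.mem_coe, Finset.mem_filter] at hi hj
      simp only at hij
      omega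
  have h2 := Finset.card_filter_add_card_filter_not (s := Finset.range L)
    (fun j => (X >>> (s - a)).testBit j = true)
  rw [Finset.card_range] at h2
  unfold ones
  omega

theorem psum_block (F : Finset ℕ) (X a W s L n : ℕ) (has : a ≤ s) (hs : 0 < s)
    (hF : ∀ i ∈ F, a ≤ i → X.testBit (i - a) = false) :
    psum F W s (s + L) ≤ blk X a W s L n := by
  have h1 := card_block F X a s L has hF
  have h2 := pc_block_le n X (s - a) L
  have h3 : psum F W s (s + L) ≤ (F.filter (fun i => s ≤ i ∧ i < s + L)).card * (wt s - W) := by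
    unfold psum
    rw [← Finset.sum_filter, ← smul_eq_mul]
    apply Finset.sum_le_card_nsmul
    intro i hi
    rw [Finset.mem_filter] at hi
    have := wt_anti hs hi.2.1
    omega
  refine le_trans h3 ?_
  have e : blk X a W s L n = (L - pc n (Nat.mod (Nat.shiftRight X (Nat.sub s a)) (Nat.pow 2 L)))
    * (wt s - W) := rfl
  rw [e]
  apply Nat.mul_le_mul_right
  have e2 : Nat.sub s a = s - a := rfl
  rw [e2]
  omega

theorem psum_segJ (F : Finset ℕ) (X a W s L n : ℕ) (has : a ≤ s) (hs : 0 < s)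
    (hF : ∀ i ∈ F, a ≤ i → X.testBit (i - a) = false) (J : ℕ) :
    psum F W s (s + L * J) ≤ segJ X a W s L n J := by
  induction J with
  | zero => rw [mul_zero, add_zero, psum_self]; exact Nat.zero_le _
  | succ J ih =>
    have h1 := psum_add F W s (s + L * J) (s + L * (J + 1))
    have h2 := psum_block F X a W (s + L * J) L n (by omega) (by omega) hF
    have h3 : s + L * J + L = s + L * (J + 1) := by ring
    rw [h3] at h2
    have e : segJ X a W s L n (J + 1) = blk X a W (s + L * J) L n + segJ X a W s L n J := rfl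
    rw [e]; omega

theorem psum_segs (F : Finset ℕ) (X a W : ℕ)
    (hF : ∀ i ∈ F, a ≤ i → X.testBit (i - a) = false) (gs : List (ℕ × ℕ)) :
    ∀ s, a ≤ s → 0 < s → psum F W s (segEnd s gs) ≤ segs X a W s gs := by
  induction gs with
  | nil => intro s _ _; rw [segEnd, psum_self]; exact Nat.zero_le _
  | cons g gs ih =>
    intro s has hs
    have h1 := psum_add F W s (s + g.1 * g.2) (segEnd (s + g.1 * g.2) gs)
    have h2 := psum_segJ F X a W s g.1 (Nat.div (Nat.add g.1 31) 32) has hs hF g.2
    have h3 := ih (s + g.1 * g.2) (by omega) (by omega)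
    have e : segs X a W s (g :: gs) = segJ X a W s g.1 (Nat.div (Nat.add g.1 31) 32) g.2
      + segs X a W (s + g.1 * g.2) gs := rfl
    rw [e, segEnd]; omega

/-! ### the check of a chunk -/

/-- check of a chunk for a list of leaves `(exclusions, W, V)` -/
def chkL (X r a K : ℕ) (gs : List (ℕ × ℕ)) : List (List (ℕ × ℕ) × ℕ × ℕ) → Bool
  | [] => true
  | l :: ls => cond (Nat.ble (segs (Nat.lor X (orE r a K l.1)) a l.2.1 a gs) l.2.2)
      (chkL X r a K gs ls) false

/-- check of a chunk -/
def chk (r a K : ℕ) (P : List (List ℕ)) (gs : List (ℕ × ℕ))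
    (ls : List (List (ℕ × ℕ) × ℕ × ℕ)) : Bool :=
  chkL (orLL (sMask r a K) P) r a K gs ls

/-- the set `F` of indices has only primes `6 i + r` and respects the exclusions `E` -/
def Good (r : ℕ) (E : List (ℕ × ℕ)) (F : Finset ℕ) : Prop :=
  (∀ i ∈ F, (6 * i + r).Prime) ∧ ∀ i ∈ F, ∀ p ∈ E, ¬ p.1 ∣ 6 * i + r + 1

/-- the bound `V` holds between `a` and `b` -/
def CB (r : ℕ) (E : List (ℕ × ℕ)) (W a b V : ℕ) : Prop :=
  ∀ F : Finset ℕ, Good r E F → psum F W a b ≤ V

theorem CB.trans {r : ℕ} {E : List (ℕ × ℕ)} {W a b c V V' : ℕ} (h : CB r E W a b V)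
    (h' : CB r E W b c V') : CB r E W a c (V + V') := by
  intro F hF
  have h1 := psum_add F W a b c
  have h2 := h F hF
  have h3 := h' F hF
  omega

theorem chkL_mem (X r a K : ℕ) (gs : List (ℕ × ℕ)) (ls : List (List (ℕ × ℕ) × ℕ × ℕ))
    (h : chkL X r a K gs ls = true) : ∀ l ∈ ls,
      segs (Nat.lor X (orE r a K l.1)) a l.2.1 a gs ≤ l.2.2 := by
  induction ls with
  | nil => intro l hl; simp at hl
  | cons m ls ih =>
    intro l hl
    unfold chkL at h
    cases h1 : Nat.ble (segs (Nat.lor X (orE r a K m.1)) a m.2.1 a gs) m.2.2 with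
    | false => rw [h1] at h; simp at h
    | true =>
      rw [h1] at h
      simp only [cond_true] at h
      rcases List.mem_cons.mp hl with rfl | hl
      · exact Nat.le_of_ble_eq_true h1
      · exact ih h l hl

theorem chk_sound {r a K : ℕ} {P : List (List ℕ)} {gs : List (ℕ × ℕ)}
    {ls : List (List (ℕ × ℕ) × ℕ × ℕ)} (h : chk r a K P gs ls = true) (ha : 0 < a) {b : ℕ}
    (hb : segEnd a gs = b) {E : List (ℕ × ℕ)} {W V : ℕ} (hl : (E, W, V) ∈ ls) :
    CB r E W a b V := by
  intro F hF
  have h1 := chkL_mem _ r a K gs ls h _ hl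
  have h2 : ∀ i ∈ F, a ≤ i →
      (Nat.lor (orLL (sMask r a K) P) (orE r a K E)).testBit (i - a) = false := by
    intro i hi hai
    by_contra hne
    have h3 : (Nat.lor (orLL (sMask r a K) P) (orE r a K E)).testBit (i - a) = true := by
      cases hb : (Nat.lor (orLL (sMask r a K) P) (orE r a K E)).testBit (i - a) with
      | false => exact absurd hb hne
      | true => rfl
    have e : Nat.lor (orLL (sMask r a K) P) (orE r a K E)
      = orLL (sMask r a K) P ||| orE r a K E := rfl
    rw [e, Nat.testBit_or, Bool.or_eq_true] at h3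
    have h4 : a + (i - a) = i := by omega
    rcases h3 with h3 | h3
    · obtain ⟨p, hp⟩ := orLL_testBit _ _ _ h3
      obtain ⟨g1, g2, g3⟩ := sMask_testBit _ _ _ _ _ hp
      rw [h4] at g3
      have h5 := hF.1 i hi
      rcases (Nat.dvd_prime h5).mp g3 with h6 | h6 <;> omega
    · obtain ⟨p, hp, hd⟩ := orE_testBit _ _ _ _ _ h3
      rw [h4] at hd
      exact hF.2 i hi p hp hd
  have h3 := psum_segs F _ a W h2 gs a le_rfl ha
  rw [hb] at h3
  exact le_trans h3 h1

end Pool.Agent.Helper17.Psi
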